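import Mathlib

/-! Plane geometry of books and trapezoids in drawings with few slopes. -/

namespace Pool.Agent.H.MP_09bf15_lc

open Filter Topology

abbrev P := ℝ × ℝ

def cr (x y : P) : ℝ := x.1 * y.2 - x.2 * y.1

open Classical in
noncomputable def sl (z : P) : Option ℝ := if z.1 = 0 then none else some (z.2 / z.1)

def rep : Option ℝ → P
  | none => (0, 1)
  | some t => (1, t)

theorem sl_rep (σ) : sl (rep σ) = σ := by cases σ <;> simp [sl, rep]

theorem rep_ne (σ) : rep σ ≠ 0 := by cases σ <;> simp [rep, Prod.ext_iff]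

theorem ne_zero_iff {z : P} : z ≠ 0 ↔ z.1 ≠ 0 ∨ z.2 ≠ 0 := by
  rw [Ne, Prod.ext_iff, not_and_or]; rfl

theorem sl_eq {x y : P} (hx : x ≠ 0) (hy : y ≠ 0) : sl x = sl y ↔ cr x y = 0 := by
  rw [ne_zero_iff] at hx hy
  unfold sl cr
  by_cases h1 : x.1 = 0 <;> by_cases h2 : y.1 = 0 <;> simp_all
  rw [div_eq_div_iff h1 h2]
  constructor <;> intro h <;> linarith

theorem sl_smul {c : ℝ} (hc : c ≠ 0) (z : P) : sl (c • z) = sl z := by
  unfold sl
  by_cases h : z.1 = 0 <;> simp [h, hc, mul_div_mul_left]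

theorem cr_smul_r (c : ℝ) (x y : P) : cr x (c • y) = c * cr x y := by simp [cr]; ring
theorem cr_smul_l (c : ℝ) (x y : P) : cr (c • x) y = c * cr x y := by simp [cr]; ring
theorem cr_add_r (x y z : P) : cr x (y + z) = cr x y + cr x z := by simp [cr]; ring
theorem cr_add_l (x y z : P) : cr (x + y) z = cr x z + cr y z := by simp [cr]; ring
theorem cr_sub_r (x y z : P) : cr x (y - z) = cr x y - cr x z := by simp [cr]; ring
theorem cr_sub_l (x y z : P) : cr (x - y) z = cr x z - cr y z := by simp [cr]; ring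
theorem cr_neg_r (x y : P) : cr x (-y) = -cr x y := by simp [cr]; ring
theorem cr_neg_l (x y : P) : cr (-x) y = -cr x y := by simp [cr]; ring
theorem cr_self (x : P) : cr x x = 0 := by simp [cr]; ring
theorem cr_zero_r (x : P) : cr x 0 = 0 := by simp [cr]
theorem cr_comm (x y : P) : cr x y = -cr y x := by simp [cr]; ring

theorem decomp {e f : P} (h : cr e f = 1) (z : P) : z = cr z f • e + cr e z • f := by
  unfold cr at *
  ext
  · simp; linear_combination (-z.1) * h
  · simp; linear_combination (-z.2) * h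

theorem exists_f {e : P} (he : e ≠ 0) : ∃ f, cr e f = 1 := by
  rcases ne_zero_iff.1 he with h | h
  · exact ⟨(0, 1 / e.1), by simp [cr, h]⟩
  · exact ⟨(-1 / e.2, 0), by simp [cr]; field_simp⟩

theorem ne_of_cr {e z : P} (h : cr e z ≠ 0) : z ≠ 0 := by rintro rfl; exact h (cr_zero_r _)

theorem ne_of_cr' {e z : P} (h : cr e z ≠ 0) : e ≠ 0 := by rintro rfl; exact h (by simp [cr])

/-- if `d` is transversal to neither of two vectors then these are parallel -/
theorem transv {d x y : P} (hd : d ≠ 0) (h : cr x y ≠ 0) : cr d x ≠ 0 ∨ cr d y ≠ 0 := by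
  by_contra hn
  push Not at hn
  obtain ⟨h1, h2⟩ := hn
  unfold cr at *
  rcases ne_zero_iff.1 hd with g | g
  · exact h (mul_left_cancel₀ g (by linear_combination x.1 * h2 - y.1 * h1))
  · exact h (mul_left_cancel₀ g (by linear_combination x.2 * h2 - y.2 * h1))

noncomputable def kap (e f : P) (σ : Option ℝ) : ℝ := cr (rep σ) f / cr e (rep σ)

theorem kap_sl {e z : P} (f : P) (hz : cr e z ≠ 0) : kap e f (sl z) = cr z f / cr e z := by
  have h0 : cr z (rep (sl z)) = 0 := (sl_eq (ne_of_cr hz) (rep_ne _)).1 (sl_rep _).symm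
  have h1 : cr e (rep (sl z)) ≠ 0 := by
    have := transv (rep_ne (sl z)) hz
    rw [cr_comm (rep _) e, cr_comm (rep _) z, h0] at this
    simpa using this
  unfold kap
  rw [div_eq_div_iff h1 hz]
  generalize rep (sl z) = r at *
  unfold cr at *
  linear_combination (-1 : ℝ) * (e.1 * f.2 - e.2 * f.1) * h0

theorem sl_kap {e f : P} (h : cr e f = 1) {σ} (hσ : σ ≠ sl e) : sl (kap e f σ • e + f) = σ := by
  have he : e ≠ 0 := ne_of_cr' (by rw [h]; exact one_ne_zero)
  have h1 : cr e (rep σ) ≠ 0 := fun q => hσ (by rw [← sl_rep σ]; exact ((sl_eq he (rep_ne _)).2 q).symm)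
  conv_rhs => rw [← sl_rep σ, decomp h (rep σ)]
  rw [← sl_smul h1]
  congr 1
  rw [smul_add, smul_smul, kap, mul_div_cancel₀ _ h1]

/-- a point in general position -/
theorem gen {W ι : Type} [AddCommGroup W] [Module ℝ W] {I : Set ι} (hI : I.Finite) (f d : ι → W → ℝ)
    (hf : ∀ i θ δ (t : ℝ), f i (θ + t • δ) = f i θ + t * d i δ) (θ0 : W) :
    ∃ θ, ∀ i ∈ I, (0 < f i θ0 → 0 < f i θ) ∧ ((∃ δ, d i δ ≠ 0) → f i θ ≠ 0) := by
  suffices h : ∀ J : Set ι, J.Finite → ∃ θ, (∀ i ∈ I, 0 < f i θ0 → 0 < f i θ) ∧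
      ∀ i ∈ J, (∃ δ, d i δ ≠ 0) → f i θ ≠ 0 by
    obtain ⟨θ, h1, h2⟩ := h I hI
    exact ⟨θ, fun i hi => ⟨h1 i hi, h2 i hi⟩⟩
  intro J hJ
  induction J, hJ using Set.Finite.induction_on with
  | empty => exact ⟨θ0, fun _ _ h => h, by simp⟩
  | @insert j J _ hJ ih =>
    obtain ⟨θ, h1, h2⟩ := ih
    by_cases hj : ∃ δ, d j δ ≠ 0
    swap
    · exact ⟨θ, h1, fun i hi => hi.elim (fun q => q ▸ fun r => (hj r).elim) (h2 i)⟩
    obtain ⟨δ, hδ⟩ := hj
    have ct : ∀ i, Tendsto (fun t : ℝ => f i θ + t * d i δ) (𝓝[≠] 0) (𝓝 (f i θ)) := fun i => by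
      have : Continuous fun t : ℝ => f i θ + t * d i δ := by fun_prop
      simpa using (this.tendsto 0).mono_left nhdsWithin_le_nhds
    have e1 : ∀ᶠ t : ℝ in 𝓝[≠] 0, ∀ i ∈ I, 0 < f i θ0 → 0 < f i θ + t * d i δ :=
      (eventually_all_finite hI).2 fun i hi => by
        by_cases q : 0 < f i θ0
        · exact ((ct i).eventually (lt_mem_nhds (h1 i hi q))).mono fun _ h _ => h
        · exact Eventually.of_forall fun _ h => (q h).elim
    have e2 : ∀ᶠ t : ℝ in 𝓝[≠] 0, ∀ i ∈ J, (∃ δ, d i δ ≠ 0) → f i θ + t * d i δ ≠ 0 :=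
      (eventually_all_finite hJ).2 fun i hi => by
        by_cases q : ∃ δ, d i δ ≠ 0
        · exact ((ct i).eventually_ne (h2 i hi q)).mono fun _ h _ => h
        · exact Eventually.of_forall fun _ h => (q h).elim
    have e3 : ∀ᶠ t : ℝ in 𝓝[≠] 0, f j θ + t * d j δ ≠ 0 := by
      by_cases q : f j θ = 0
      · filter_upwards [self_mem_nhdsWithin] with t ht
        rw [q, zero_add]
        exact mul_ne_zero ht hδ
      · exact (ct j).eventually_ne q
    obtain ⟨t, t1, t2, t3⟩ := (e1.and (e2.and e3)).exists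
    refine ⟨θ + t • δ, fun i hi q => ?_, fun i hi q => ?_⟩
    · rw [hf]; exact t1 i hi q
    · rw [hf]
      rcases hi with rfl | hi
      · exact t3
      · exact t2 i hi q

theorem fill {ι : Type} {T : Finset ℝ} {J : Finset ι} {g : ι → ℝ} {m : ℝ} (hm : m ∈ T)
    (hg : ∀ x ∈ J, g x ∈ T ∧ g x ≠ m) (inj : Set.InjOn g J) :
    J.card + 1 ≤ T.card ∧ (T.card ≤ J.card + 1 → ∀ τ ∈ T, τ ≠ m → ∃ x ∈ J, g x = τ) := by
  classical
  have s : J.image g ⊆ T.erase m := fun τ h => by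
    obtain ⟨x, hx, rfl⟩ := Finset.mem_image.1 h
    exact Finset.mem_erase.2 ⟨(hg x hx).2, (hg x hx).1⟩
  have c1 := Finset.card_image_of_injOn inj
  have c2 := Finset.card_erase_add_one hm
  have c3 := Finset.card_le_card s
  refine ⟨by omega, fun h τ h1 h2 => ?_⟩
  have := Finset.eq_of_subset_of_card_le s (by omega)
  exact Finset.mem_image.1 (this ▸ Finset.mem_erase.2 ⟨h2, h1⟩)

/-- `z` is a positive multiple of `y` -/
def Ray (y z : P) : Prop := ∃ c : ℝ, 0 < c ∧ z = c • y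

theorem Ray.refl (y : P) : Ray y y := ⟨1, one_pos, by simp⟩

theorem Ray.symm {y z : P} (h : Ray y z) : Ray z y := by
  obtain ⟨c, hc, rfl⟩ := h
  exact ⟨c⁻¹, inv_pos.2 hc, by rw [smul_smul, inv_mul_cancel₀ hc.ne', one_smul]⟩

theorem Ray.trans {x y z : P} (h : Ray x y) (g : Ray y z) : Ray x z := by
  obtain ⟨c, hc, rfl⟩ := h
  obtain ⟨d, hd, rfl⟩ := g
  exact ⟨d * c, mul_pos hd hc, smul_smul _ _ _⟩

theorem Ray.add {x y z : P} (h : Ray x y) (g : Ray x z) : Ray x (y + z) := by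
  obtain ⟨c, hc, rfl⟩ := h
  obtain ⟨d, hd, rfl⟩ := g
  exact ⟨c + d, add_pos hc hd, (add_smul _ _ _).symm⟩

theorem Ray.neg {y z : P} (h : Ray y z) : Ray (-y) (-z) := by
  obtain ⟨c, hc, rfl⟩ := h
  exact ⟨c, hc, by simp⟩

theorem Ray.sl {y z : P} (h : Ray y z) : sl z = sl y := by
  obtain ⟨c, hc, rfl⟩ := h
  exact sl_smul hc.ne' _

/-- the properties of a drawing that the soundness proof uses -/
structure Dr {V : Type} (A : V → V → Prop) (p : V → P) (S : Finset (Option ℝ)) : Prop where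
  symm : ∀ {x y}, A x y → A y x
  ne : ∀ {x y}, A x y → p y - p x ≠ 0
  ray : ∀ {x y z}, A x y → A x z → y ≠ z → ¬Ray (p y - p x) (p z - p x)
  sl : ∀ {x y}, A x y → sl (p y - p x) ∈ S

theorem tri {a b c : P} (h0 : b - a ≠ 0) (h1 : c - a ≠ 0) (h2 : ¬Ray (b - a) (c - a)) (h3 : ¬Ray (a - b) (c - b)) :
    cr (b - a) (c - a) ≠ 0 := fun h => by
  obtain ⟨f, hf⟩ := exists_f h0
  have e := decomp hf (c - a)
  rw [h, zero_smul, add_zero] at e
  generalize cr (c - a) f = t at e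
  rcases lt_trichotomy t 0 with g | rfl | g
  · refine h3 ⟨1 - t, by linarith, ?_⟩
    have : c - b = (c - a) - (b - a) := by abel
    rw [this, e]; module
  · exact h1 (by simpa using e)
  · exact h2 ⟨t, g, e⟩

theorem ray_of {e f y z : P} (h : cr e f = 1) (s : 0 < cr e y * cr e z) (q : cr y f / cr e y = cr z f / cr e z) :
    Ray y z := by
  have a : cr e y ≠ 0 := fun r => by simp [r] at s
  have b : cr e z ≠ 0 := fun r => by simp [r] at s
  refine ⟨cr e z / cr e y, ?_, ?_⟩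
  · have : cr e z / cr e y = cr e y * cr e z / (cr e y * cr e y) := by field_simp
    rw [this]; exact div_pos s (mul_self_pos.2 a)
  · have d := congrArg (fun w => (cr e z / cr e y) • w) (decomp h y)
    simp only [smul_add, smul_smul, div_mul_cancel₀ _ a] at d
    rw [d]
    conv_lhs => rw [decomp h z]
    congr 2
    rw [div_eq_div_iff a b] at q
    field_simp
    linarith

theorem ray_kap {e f z : P} (h : cr e f = 1) (s : 0 < cr e z) : Ray ((cr z f / cr e z) • e + f) z :=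
  ⟨cr e z, s, by rw [smul_add, smul_smul, mul_div_cancel₀ _ s.ne']; exact decomp h z⟩

theorem ray_kap' {e f z : P} (h : cr e f = 1) (s : cr e z < 0) : Ray (-((cr z f / cr e z) • e + f)) z :=
  ⟨-cr e z, by linarith, by
    rw [neg_smul_neg, smul_add, smul_smul, mul_div_cancel₀ _ s.ne]; exact decomp h z⟩

theorem ray_flat {e f z : P} (h : cr e f = 1) (s : cr e z = 0) (hz : z ≠ 0) : Ray e z ∨ Ray (-e) z := by
  have q := decomp h z
  rw [s, zero_smul, add_zero] at q
  rcases lt_trichotomy (cr z f) 0 with g | g | g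
  · exact Or.inr ⟨-cr z f, by linarith, by rw [neg_smul_neg]; exact q⟩
  · exact (hz (by rw [q, g, zero_smul])).elim
  · exact Or.inl ⟨_, g, q⟩

/-- one end of a book: the pages on one side use all slopes but one -/
theorem side {V ι : Type} {A : V → V → Prop} {p : V → P} {S} (D : Dr A p S) {e f : P} (h : cr e f = 1) {x : V}
    {J : Finset ι} {g : ι → V} (gi : Set.InjOn g J) {ε : ℝ} (ha : ∀ t ∈ J, A x (g t) ∧ 0 < ε * cr e (p (g t) - p x))
    {m : ℝ} (hm : m ∈ (S.erase (sl e)).image (kap e f))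
    (hne : ∀ t ∈ J, cr (p (g t) - p x) f / cr e (p (g t) - p x) ≠ m) :
    J.card + 1 ≤ ((S.erase (sl e)).image (kap e f)).card ∧
    (((S.erase (sl e)).image (kap e f)).card ≤ J.card + 1 → ∀ z, A x z → (∀ t ∈ J, z ≠ g t) →
      0 < ε * cr e (p z - p x) → cr (p z - p x) f / cr e (p z - p x) = m) := by
  have he : e ≠ 0 := ne_of_cr' (by rw [h]; exact one_ne_zero)
  have mem : ∀ z, A x z → 0 < ε * cr e (p z - p x) →
      cr (p z - p x) f / cr e (p z - p x) ∈ (S.erase (sl e)).image (kap e f) := fun z a b => by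
    have c : cr e (p z - p x) ≠ 0 := fun r => by simp [r] at b
    exact Finset.mem_image.2 ⟨_, Finset.mem_erase.2 ⟨fun r => c ((sl_eq he (D.ne a)).1 r.symm), D.sl a⟩, kap_sl f c⟩
  have ps : ∀ {a b : ℝ}, 0 < ε * a → 0 < ε * b → 0 < a * b := fun {a b} h1 h2 => by
    have := mul_pos h1 h2
    have e2 : 0 < ε * ε := mul_self_pos.2 fun r => by simp [r] at h1
    by_contra hn
    nlinarith
  obtain ⟨h1, h2⟩ := fill (J := J) (g := fun t => cr (p (g t) - p x) f / cr e (p (g t) - p x)) hm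
    (fun t ht => ⟨mem _ (ha t ht).1 (ha t ht).2, hne t ht⟩) fun s hs t ht q => by
      by_contra hn
      exact D.ray (ha s hs).1 (ha t ht).1 (fun r => hn (gi hs ht r)) (ray_of h (ps (ha s hs).2 (ha t ht).2) q)
  refine ⟨h1, fun c z a b s => ?_⟩
  by_contra hn
  obtain ⟨t, ht, q⟩ := h2 c _ (mem z a s) hn
  exact D.ray (ha t ht).1 a (b t ht).symm (ray_of h (ps (ha t ht).2 s) q)

/-- the conclusion of the book lemma -/
structure Book {V : Type} (A : V → V → Prop) (p : V → P) (S : Finset (Option ℝ)) (u v : V) (pg : V → Prop)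
    (f : P) (m M : ℝ) : Prop where
  one : cr (p v - p u) f = 1
  le : m ≤ M
  bd : ∀ z, sl z ∈ S → cr (p v - p u) z ≠ 0 → m ≤ cr z f / cr (p v - p u) z ∧ cr z f / cr (p v - p u) z ≤ M
  atv : ∀ z, A v z → z ≠ u → ¬pg z → Ray (p v - p u) (p z - p v) ∨ Ray (M • (p v - p u) + f) (p z - p v) ∨
    Ray (-(m • (p v - p u) + f)) (p z - p v)
  atu : ∀ z, A u z → z ≠ v → ¬pg z → Ray (-(p v - p u)) (p z - p u) ∨ Ray (-(M • (p v - p u) + f)) (p z - p u) ∨
    Ray (m • (p v - p u) + f) (p z - p u)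

theorem book {V ι : Type} {A : V → V → Prop} {p : V → P} {S} (D : Dr A p S) {k : ℕ} (hk : 3 ≤ k) (hS : S.card ≤ k)
    {u v : V} (huv : A u v) {I : Finset ι} {g : ι → V} (gi : Set.InjOn g I) (hI : I.card = 2 * (k - 2))
    (ha : ∀ t ∈ I, A u (g t) ∧ A v (g t)) : ∃ f m M, Book A p S u v (fun z => ∃ t ∈ I, z = g t) f m M := by
  classical
  have he := D.ne huv
  obtain ⟨f, h⟩ := exists_f he
  set e := p v - p u with hE
  set T := (S.erase (sl e)).image (kap e f) with hT
  have cT : T.card + 1 ≤ k := by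
    have h1 : T.card ≤ _ := Finset.card_image_le
    have h2 : (S.erase (sl e)).card + 1 = _ := Finset.card_erase_add_one (D.sl huv)
    omega
  have mem : ∀ z, sl z ∈ S → cr e z ≠ 0 → cr z f / cr e z ∈ T := fun z a c =>
    Finset.mem_image.2 ⟨_, Finset.mem_erase.2 ⟨fun r => c ((sl_eq he (ne_of_cr c)).1 r.symm), a⟩, kap_sl f c⟩
  have uv : ∀ t, p (g t) - p v = (p (g t) - p u) - e := fun t => by rw [hE]; abel
  have y1 : ∀ t, cr e (p (g t) - p v) = cr e (p (g t) - p u) := fun t => by rw [uv, cr_sub_r, cr_self, sub_zero]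
  have y2 : ∀ t, cr (p (g t) - p v) f = cr (p (g t) - p u) f - 1 := fun t => by rw [uv, cr_sub_l, h]
  have nz : ∀ t ∈ I, cr e (p (g t) - p u) ≠ 0 := fun t ht => by
    have n1 : v ≠ g t := fun q => D.ne (ha t ht).2 (by rw [← q, sub_self])
    have n2 : u ≠ g t := fun q => D.ne (ha t ht).1 (by rw [← q, sub_self])
    exact tri he (D.ne (ha t ht).1) (D.ray huv (ha t ht).1 n1) (D.ray (D.symm huv) (ha t ht).2 n2)
  have ne : T.Nonempty := by
    obtain ⟨t, ht⟩ : I.Nonempty := Finset.card_pos.1 (by omega)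
    exact ⟨_, mem _ (D.sl (ha t ht).1) (nz t ht)⟩
  have hm := T.min'_mem ne
  have hM := T.max'_mem ne
  have bd : ∀ z, sl z ∈ S → cr e z ≠ 0 → T.min' ne ≤ cr z f / cr e z ∧ cr z f / cr e z ≤ T.max' ne := fun z a c =>
    ⟨T.min'_le _ (mem z a c), T.le_max' _ (mem z a c)⟩
  let Ab := I.filter fun t => 0 < cr e (p (g t) - p u)
  let Be := I.filter fun t => ¬0 < cr e (p (g t) - p u)
  have cc : Ab.card + Be.card = I.card := Finset.card_filter_add_card_filter_not _
  have mA : ∀ t ∈ Ab, t ∈ I ∧ 0 < cr e (p (g t) - p u) := fun t ht => Finset.mem_filter.1 ht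
  have mB : ∀ t ∈ Be, t ∈ I ∧ cr e (p (g t) - p u) < 0 := fun t ht =>
    ⟨(Finset.mem_filter.1 ht).1, lt_of_le_of_ne (not_lt.1 (Finset.mem_filter.1 ht).2) (nz t (Finset.mem_filter.1 ht).1)⟩
  have iA : Set.InjOn g Ab := gi.mono fun t ht => (mA t ht).1
  have iB : Set.InjOn g Be := gi.mono fun t ht => (mB t ht).1
  have bu := fun t (ht : t ∈ I) => bd _ (D.sl (ha t ht).1) (nz t ht)
  have bv := fun t (ht : t ∈ I) => bd _ (D.sl (ha t ht).2) (by rw [y1]; exact nz t ht)
  have lA : ∀ t ∈ Ab, cr (p (g t) - p v) f / cr e (p (g t) - p v) < cr (p (g t) - p u) f / cr e (p (g t) - p u) :=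
    fun t ht => by rw [y1, y2]; exact div_lt_div_of_pos_right (by linarith) (mA t ht).2
  have lB : ∀ t ∈ Be, cr (p (g t) - p u) f / cr e (p (g t) - p u) < cr (p (g t) - p v) f / cr e (p (g t) - p v) :=
    fun t ht => by rw [y1, y2]; exact div_lt_div_of_neg_of_lt (mB t ht).2 (by linarith)
  obtain ⟨a1, a2⟩ := side D h iA (x := u) (ε := 1) (fun t ht => ⟨(ha t (mA t ht).1).1, by simpa using (mA t ht).2⟩) hm
    fun t ht => (lt_of_le_of_lt (bv t (mA t ht).1).1 (lA t ht)).ne'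
  obtain ⟨-, a3⟩ := side D h iA (x := v) (ε := 1)
    (fun t ht => ⟨(ha t (mA t ht).1).2, by simpa [y1] using (mA t ht).2⟩) hM
    fun t ht => (lt_of_lt_of_le (lA t ht) (bu t (mA t ht).1).2).ne
  obtain ⟨b1, b2⟩ := side D h iB (x := u) (ε := -1) (fun t ht => ⟨(ha t (mB t ht).1).1, by simpa using (mB t ht).2⟩) hM
    fun t ht => (lt_of_lt_of_le (lB t ht) (bv t (mB t ht).1).2).ne
  obtain ⟨-, b3⟩ := side D h iB (x := v) (ε := -1)
    (fun t ht => ⟨(ha t (mB t ht).1).2, by simpa [y1] using (mB t ht).2⟩) hm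
    fun t ht => (lt_of_le_of_lt (bu t (mB t ht).1).1 (lB t ht)).ne'
  rw [← hT] at a1 a2 a3 b1 b2 b3
  refine ⟨f, T.min' ne, T.max' ne, h, T.min'_le _ hM, bd, fun z a b c => ?_, fun z a b c => ?_⟩
  · rcases lt_trichotomy (cr e (p z - p v)) 0 with q | q | q
    · rw [← b3 (by omega) z a (fun t ht r => c ⟨t, (mB t ht).1, r⟩) (by simpa using q)]
      exact Or.inr (Or.inr (ray_kap' h q))
    · refine Or.inl ((ray_flat h q (D.ne a)).resolve_right fun r => D.ray (D.symm huv) a b.symm ?_)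
      rwa [hE, neg_sub] at r
    · rw [← a3 (by omega) z a (fun t ht r => c ⟨t, (mA t ht).1, r⟩) (by simpa using q)]
      exact Or.inr (Or.inl (ray_kap h q))
  · rcases lt_trichotomy (cr e (p z - p u)) 0 with q | q | q
    · rw [← b2 (by omega) z a (fun t ht r => c ⟨t, (mB t ht).1, r⟩) (by simpa using q)]
      exact Or.inr (Or.inl (ray_kap' h q))
    · exact Or.inl ((ray_flat h q (D.ne a)).resolve_left fun r => D.ray huv a b.symm r)
    · rw [← a2 (by omega) z a (fun t ht r => c ⟨t, (mA t ht).1, r⟩) (by simpa using q)]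
      exact Or.inr (Or.inr (ray_kap h q))

variable {V : Type} {A : V → V → Prop} {p : V → P} {S : Finset (Option ℝ)} {u v : V} {pg : V → Prop} {f : P} {m M : ℝ}

/-- a segment joining neighbours of the two ends of the spine, with an admissible slope, is parallel to the spine -/
theorem Book.trap (B : Book A p S u v pg f m M) {y z : V} (hy : A u y) (hy' : y ≠ v) (hy'' : ¬pg y) (hz : A v z)
    (hz' : z ≠ u) (hz'' : ¬pg z) (hs : sl (p z - p y) ∈ S) : Ray (p v - p u) (p z - p y) := by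
  have one := B.one
  have le := B.le
  have bd := B.bd _ hs
  have e1 : p z - p y = (p z - p v) + (p v - p u) - (p y - p u) := by abel
  have r1 := B.atv z hz hz' hz''
  have r2 := B.atu y hy hy' hy''
  rw [e1] at bd ⊢
  generalize p v - p u = e at *
  generalize p z - p v = z' at *
  generalize p y - p u = y' at *
  have s1 : 0 ≤ cr z' f - M * cr e z' ∧ 0 ≤ cr z' f - m * cr e z' := by
    rcases r1 with ⟨c, hc, rfl⟩ | ⟨c, hc, rfl⟩ | ⟨c, hc, rfl⟩ <;>
    simp only [cr_smul_r, cr_smul_l, cr_add_r, cr_add_l, cr_neg_r, cr_neg_l, cr_self, one] <;>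
    constructor <;> nlinarith
  have s2 : cr y' f - M * cr e y' ≤ 0 ∧ cr y' f - m * cr e y' ≤ 0 := by
    rcases r2 with ⟨c, hc, rfl⟩ | ⟨c, hc, rfl⟩ | ⟨c, hc, rfl⟩ <;>
    simp only [cr_smul_r, cr_smul_l, cr_add_r, cr_add_l, cr_neg_r, cr_neg_l, cr_self, one] <;>
    constructor <;> nlinarith
  have a1 : cr (z' + e - y') f = cr z' f + 1 - cr y' f := by rw [cr_sub_l, cr_add_l, one]
  have a2 : cr e (z' + e - y') = cr e z' - cr e y' := by rw [cr_sub_r, cr_add_r, cr_self, add_zero]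
  have d := decomp one (z' + e - y')
  generalize z' + e - y' = w at *
  have k1 : 1 ≤ cr w f - M * cr e w := by rw [a1, a2, mul_sub]; linarith [s1.1, s2.1]
  have k2 : 1 ≤ cr w f - m * cr e w := by rw [a1, a2, mul_sub]; linarith [s1.2, s2.2]
  rcases lt_trichotomy (cr e w) 0 with q | q | q
  · have := (le_div_iff_of_neg q).1 (bd q.ne).1
    linarith
  · rw [q, zero_smul, add_zero] at d
    exact ⟨_, by rw [q] at k1; linarith, d⟩
  · have := (div_le_iff₀ q).1 (bd q.ne').2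
    linarith

/-- with two proper trapezoids the third neighbours continue the spine -/
theorem Book.straight (B : Book A p S u v pg f m M) (D : Dr A p S) {y z : Fin 3 → V} (hy : ∀ i, A u (y i))
    (hy' : ∀ i, y i ≠ v) (hy'' : ∀ i, ¬pg (y i)) (hz : ∀ i, A v (z i)) (hz' : ∀ i, z i ≠ u) (hz'' : ∀ i, ¬pg (z i))
    (yi : Function.Injective y) (zi : Function.Injective z)
    (hs : ∀ i, i ≠ 0 → Ray (p v - p u) (p (z i) - p (y i)) ∧
      ∃ w, A (y i) w ∧ w ≠ u ∧ Ray (p (z i) - p (y i)) (p w - p (y i))) :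
    Ray (p v - p u) (p u - p (y 0)) ∧ Ray (p v - p u) (p (z 0) - p v) := by
  have one := B.one
  have n1 : ∀ i, i ≠ 0 → ¬Ray (-(p v - p u)) (p (y i) - p u) := fun i hi r => by
    obtain ⟨r1, w, w1, w2, w3⟩ := hs i hi
    have r2 := r.neg
    rw [neg_neg, neg_sub] at r2
    exact D.ray w1 (D.symm (hy i)) w2 ((r1.trans w3).symm.trans r2)
  have n2 : ∀ i, i ≠ 0 → ¬Ray (p v - p u) (p (z i) - p v) := fun i hi r => by
    obtain ⟨⟨c, -, r1⟩, -⟩ := hs i hi
    obtain ⟨d, -, r⟩ := r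
    have q : cr (p v - p u) (p (y i) - p u) = 0 := by
      have : p (y i) - p u = (p (z i) - p v) + (p v - p u) - (p (z i) - p (y i)) := by abel
      rw [this, r, r1]
      simp only [cr_sub_r, cr_add_r, cr_smul_r, cr_self]; ring
    rcases B.atu _ (hy i) (hy' i) (hy'' i) with g | ⟨c, hc, g⟩ | ⟨c, hc, g⟩
    · exact n1 i hi g
    all_goals
      rw [g] at q
      simp only [cr_smul_r, cr_add_r, cr_neg_r, cr_self, one] at q
      linarith
  have dy : ∀ i j, i ≠ j → ∀ w, Ray w (p (y i) - p u) → ¬Ray w (p (y j) - p u) := fun i j h w a b =>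
    D.ray (hy i) (hy j) (yi.ne h) (a.symm.trans b)
  have dz : ∀ i j, i ≠ j → ∀ w, Ray w (p (z i) - p v) → ¬Ray w (p (z j) - p v) := fun i j h w a b =>
    D.ray (hz i) (hz j) (zi.ne h) (a.symm.trans b)
  constructor
  · have a1 := (B.atu _ (hy 1) (hy' 1) (hy'' 1)).resolve_left (n1 1 (by decide))
    have a2 := (B.atu _ (hy 2) (hy' 2) (hy'' 2)).resolve_left (n1 2 (by decide))
    rcases B.atu _ (hy 0) (hy' 0) (hy'' 0) with g | g | g
    · simpa using g.neg
    · exact (dy 1 2 (by decide) _ (a1.resolve_left (dy 0 1 (by decide) _ g))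
        (a2.resolve_left (dy 0 2 (by decide) _ g))).elim
    · exact (dy 1 2 (by decide) _ (a1.resolve_right (dy 0 1 (by decide) _ g))
        (a2.resolve_right (dy 0 2 (by decide) _ g))).elim
  · have a1 := (B.atv _ (hz 1) (hz' 1) (hz'' 1)).resolve_left (n2 1 (by decide))
    have a2 := (B.atv _ (hz 2) (hz' 2) (hz'' 2)).resolve_left (n2 2 (by decide))
    rcases B.atv _ (hz 0) (hz' 0) (hz'' 0) with g | g | g
    · exact g
    · exact (dz 1 2 (by decide) _ (a1.resolve_left (dz 0 1 (by decide) _ g))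
        (a2.resolve_left (dz 0 2 (by decide) _ g))).elim
    · exact (dz 1 2 (by decide) _ (a1.resolve_right (dz 0 1 (by decide) _ g))
        (a2.resolve_right (dz 0 2 (by decide) _ g))).elim

end Pool.Agent.H.MP_09bf15_lc
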