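import Pool.Agent.H.MP_09bf15_lc.A

/-! The shape of a book for a given set of slopes. -/

namespace Pool.Agent.H.MP_09bf15_lc

inductive K
  | spn | md | lo | up
  | pg (z : Bool) (t : ℕ)

def K.ok (k : ℕ) : K → Prop
  | .pg _ t => t < k - 2
  | _ => True

structure Sh where
  (e a b : P)
  (w : Bool → ℕ → P)

def Sh.R (h : Sh) : Bool → K → P
  | false, .spn => h.e
  | false, .md => -h.e
  | false, .lo => -h.a
  | false, .up => -h.b
  | false, .pg z t => h.w z t
  | true, .spn => -h.e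
  | true, .md => h.e
  | true, .lo => h.b
  | true, .up => h.a
  | true, .pg z t => h.w z t - h.e

structure Good (S : Finset (Option ℝ)) (k : ℕ) (d : P) (h : Sh) : Prop where
  dir : Ray d h.e
  add : h.a + h.b = h.e
  one : cr h.e h.a = 1
  wne : ∀ z t, t < k - 2 → cr h.e (h.w z t) ≠ 0
  sl : ∀ s κ, κ.ok k → sl (h.R s κ) ∈ S
  nz : ∀ s κ, κ.ok k → h.R s κ ≠ 0
  ray : ∀ s κ κ', κ.ok k → κ'.ok k → κ ≠ κ' → ¬Ray (h.R s κ) (h.R s κ')

def lab (k : ℕ) : Bool → K → Bool × Option ℕ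
  | false, .spn => (true, none)
  | false, .md => (false, none)
  | false, .lo => (false, some (k - 2))
  | false, .up => (true, some 0)
  | false, .pg true t => (true, some (t + 1))
  | false, .pg false t => (false, some t)
  | true, .spn => (false, none)
  | true, .md => (true, none)
  | true, .lo => (false, some 0)
  | true, .up => (true, some (k - 2))
  | true, .pg true t => (true, some t)
  | true, .pg false t => (false, some (t + 1))

theorem lab_inj {k s κ κ'} (h : κ.ok k) (h' : κ'.ok k) (e : lab k s κ = lab k s κ') : κ = κ' := by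
  rcases s <;> rcases κ with _ | _ | _ | _ | ⟨_ | _, t⟩ <;> rcases κ' with _ | _ | _ | _ | ⟨_ | _, t'⟩ <;>
    simp_all [lab, K.ok] <;> omega

theorem lab_lt {k s κ j} (hk : 3 ≤ k) (h : κ.ok k) (e : (lab k s κ).2 = some j) : j < k - 1 := by
  rcases s <;> rcases κ with _ | _ | _ | _ | ⟨_ | _, t⟩ <;> simp_all [lab, K.ok] <;> omega

def bs (d : P) (n : ℕ → P) : Bool × Option ℕ → P
  | (true, none) => d
  | (false, none) => -d
  | (true, some j) => n j
  | (false, some j) => -n j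

theorem shape {S : Finset (Option ℝ)} {k : ℕ} (hS : S.card = k) (hk : 3 ≤ k) {d : P} (hd : d ≠ 0) (hs : sl d ∈ S) :
    ∃ h, Good S k d h := by
  obtain ⟨f, hf⟩ := exists_f hd
  let T := (S.erase (sl d)).image (kap d f)
  have hT : T.card = k - 1 := by
    rw [Finset.card_image_of_injOn, Finset.card_erase_of_mem hs, hS]
    intro σ h1 τ h2 q
    rw [← sl_kap hf (Finset.mem_erase.1 h1).1, q, sl_kap hf (Finset.mem_erase.1 h2).1]
  let κ : ℕ → ℝ := fun j => if h : j < k - 1 then T.orderEmbOfFin hT ⟨j, h⟩ else 0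
  have mono : ∀ i j, i < j → j < k - 1 → κ i < κ j := fun i j h1 h2 => by
    simp only [κ, h2, h1.trans h2, dif_pos]
    exact (T.orderEmbOfFin hT).strictMono h1
  let n : ℕ → P := fun j => κ j • d + f
  have sn : ∀ j < k - 1, sl (n j) ∈ S := fun j hj => by
    have : κ j ∈ T := by simp only [κ, hj, dif_pos]; exact T.orderEmbOfFin_mem hT _
    obtain ⟨σ, h1, h2⟩ := Finset.mem_image.1 this
    simp only [n, ← h2, sl_kap hf (Finset.mem_erase.1 h1).1]
    exact (Finset.mem_erase.1 h1).2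
  have n1 : ∀ j, cr d (n j) = 1 := fun j => by simp only [n, cr_add_r, cr_smul_r, cr_self, hf]; ring
  have n2 : ∀ j, cr (n j) f = κ j := fun j => by simp only [n, cr_add_l, cr_smul_l, cr_self, hf]; ring
  have w0 : 0 < κ (k - 2) - κ 0 := sub_pos.2 (mono _ _ (by omega) (by omega))
  obtain ⟨μ, hμ, hμ'⟩ : ∃ μ : ℝ, 0 < μ ∧ μ * μ * (κ (k - 2) - κ 0) = 1 :=
    ⟨(Real.sqrt (κ (k - 2) - κ 0))⁻¹, inv_pos.2 (Real.sqrt_pos.2 w0), by
      rw [← mul_inv, Real.mul_self_sqrt w0.le, inv_mul_cancel₀ w0.ne']⟩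
  let y : ℕ → ℝ := fun t => μ * (κ (k - 2) - κ 0) / (κ (t + 1) - κ t)
  have st : ∀ t < k - 2, 0 < κ (t + 1) - κ t := fun t ht => sub_pos.2 (mono _ _ (by omega) (by omega))
  have y0 : ∀ t < k - 2, 0 < y t := fun t ht => div_pos (mul_pos hμ w0) (st t ht)
  have y1 : ∀ t < k - 2, y t • n (t + 1) - y t • n t = (μ * (κ (k - 2) - κ 0)) • d := fun t ht => by
    rw [← div_mul_cancel₀ (μ * (κ (k - 2) - κ 0)) (st t ht).ne']
    simp only [n, y]
    module
  let h : Sh := ⟨(μ * (κ (k - 2) - κ 0)) • d, μ • n (k - 2), -(μ • n 0),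
    fun z t => if z then y t • n (t + 1) else -(y t • n t)⟩
  have r : ∀ s κ', κ'.ok k → Ray (bs d n (lab k s κ')) (h.R s κ') := fun s κ' o => by
    rcases s <;> rcases κ' with _ | _ | _ | _ | ⟨_ | _, t⟩ <;> simp only [lab, bs, Sh.R, h]
    · exact ⟨_, mul_pos hμ w0, rfl⟩
    · exact ⟨_, mul_pos hμ w0, by simp⟩
    · exact ⟨_, hμ, by simp⟩
    · exact ⟨_, hμ, by simp⟩
    · exact ⟨_, y0 t o, by simp⟩
    · exact ⟨_, y0 t o, by simp⟩
    · exact ⟨_, mul_pos hμ w0, by simp⟩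
    · exact ⟨_, mul_pos hμ w0, rfl⟩
    · exact ⟨_, hμ, by simp⟩
    · exact ⟨_, hμ, by simp⟩
    · exact ⟨_, y0 t o, by rw [← y1 t o]; simp; abel⟩
    · exact ⟨_, y0 t o, by rw [← y1 t o]; simp⟩
  have bi : ∀ l l' : Bool × Option ℕ, (∀ j, l.2 = some j → j < k - 1) → (∀ j, l'.2 = some j → j < k - 1) →
      Ray (bs d n l) (bs d n l') → l = l' := by
    rintro ⟨s, o⟩ ⟨s', o'⟩ h1 h2 ⟨c, hc, q⟩
    have q1 := congrArg (cr d) q
    have q2 := congrArg (fun z => cr z f) q
    have ki : ∀ i j, i < k - 1 → j < k - 1 → κ i = κ j → i = j := fun i j a b e => by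
      rcases lt_trichotomy i j with g | g | g
      · exact ((mono _ _ g b).ne e).elim
      · exact g
      · exact ((mono _ _ g a).ne' e).elim
    rcases s <;> rcases s' <;> rcases o with _ | i <;> rcases o' with _ | j <;>
      simp only [bs, cr_smul_r, cr_smul_l, cr_neg_r, cr_neg_l, n1, n2, cr_self, hf] at q1 q2 <;>
      first
        | rfl
        | (exfalso; linarith)
        | (have : c = 1 := by linarith
           subst this
           rw [ki i j (h1 _ rfl) (h2 _ rfl) (by linarith)])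
  have bn : ∀ l, bs d n l ≠ 0 := by
    have : ∀ j, n j ≠ 0 := fun j => ne_of_cr (e := d) (by rw [n1]; exact one_ne_zero)
    rintro ⟨_ | _, _ | j⟩ <;> simp [bs, hd, this]
  refine ⟨h, ⟨_, mul_pos hμ w0, rfl⟩, ?_, ?_, fun z t ht => ?_, fun s κ' o => ?_, fun s κ' o => ?_,
    fun s κ1 κ2 o1 o2 hn q => ?_⟩
  · simp only [h, n]; module
  · simp only [h, cr_smul_l, cr_smul_r, n1]; linarith
  · have := (y0 t ht).ne'
    have := (mul_pos hμ w0).ne'
    cases z <;> simp [h, cr_smul_l, cr_smul_r, cr_neg_r, n1, *]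
  · rw [(r s κ' o).sl]
    have := fun j => @lab_lt k s κ' j hk o
    generalize lab k s κ' = l at *
    have ng : ∀ z : P, sl (-z) = sl z := fun z => by rw [← neg_one_smul ℝ z, sl_smul (by simp)]
    rcases l with ⟨_ | _, _ | j⟩ <;> simp only [bs, ng]
    exacts [hs, sn _ (this _ rfl), hs, sn _ (this _ rfl)]
  · obtain ⟨c, hc, q⟩ := r s κ' o
    rw [q]
    exact smul_ne_zero hc.ne' (bn _)
  · exact hn (lab_inj o1 o2 (bi _ _ (fun j => lab_lt hk o1) (fun j => lab_lt hk o2)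
      (((r s _ o1).trans q).trans (r s _ o2).symm)))

end Pool.Agent.H.MP_09bf15_lc
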