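import Pool.Agent.H.MP_09bf15_lc.B

/-! The graph of a system of complete quadrangles, and soundness. -/

namespace Pool.Agent.H.MP_09bf15_lc

inductive Bk
  | e (i : ℕ)
  | l (c i : ℕ)
  deriving DecidableEq

inductive Vx
  | X (j s : ℕ)
  | sp (β : Bk) (s : Bool)
  | pg (β : Bk) (z : Bool) (t : ℕ)
  | lo (i : ℕ) (s : Bool)
  | up (i : ℕ) (s : Bool)
  | rg (c i : ℕ) (s : Bool)
  deriving DecidableEq

inductive Eg
  | hub (β : Bk) (s : Bool) (κ : K)
  | bl (i : ℕ)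
  | br (c i : ℕ)

def ep (r : ℕ) (s : Bool) : ℕ := if s then [1, 2, 3, 2, 3, 3].getD r 0 else [0, 0, 0, 1, 1, 2].getD r 0

def tg : Bk → Bool → K → Vx
  | β, s, .spn => .sp β (!s)
  | β, _, .pg z t => .pg β z t
  | .e i, s, .lo => .lo i s
  | .e i, s, .up => .up i s
  | .e i, s, .md => .X (i / 6) (ep (i % 6) s)
  | .l c i, s, .lo => .rg c i s
  | .l c i, s, .up => .rg c (i + 1) s
  | .l _ i, s, .md => .up i s

def Eg.src : Eg → Vx
  | .hub β s _ => .sp β s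
  | .bl i => .lo i false
  | .br c i => .rg c i false

def Eg.tgt : Eg → Vx
  | .hub β s κ => tg β s κ
  | .bl i => .lo i true
  | .br c i => .rg c i true

theorem Eg.ne (ε : Eg) : ε.src ≠ ε.tgt := by
  rcases ε with ⟨_ | _, _ | _, _ | _ | _ | _ | _⟩ | _ | _ <;> simp [Eg.src, Eg.tgt, tg]

theorem tg_inj {β s κ κ'} (h : tg β s κ = tg β s κ') : κ = κ' := by
  rcases β <;> rcases κ <;> rcases κ' <;> simp_all [tg]

variable (n C k : ℕ) (cls : ℕ → ℕ)

def Bk.ok : Bk → Prop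
  | .e i => i < 6 * n
  | .l c i => c < C ∧ i < 6 * n

def Bk.md : Bk → Prop
  | .e _ => True
  | .l c i => cls i = c

def Eg.ok : Eg → Prop
  | .hub β _ κ => β.ok n C ∧ κ.ok k ∧ (κ = .md → β.md cls)
  | .bl i => i < 6 * n
  | .br c i => c < C ∧ i ≤ 6 * n

def Adj (x y : Vx) : Prop := ∃ ε : Eg, ε.ok n C k cls ∧ (ε.src = x ∧ ε.tgt = y ∨ ε.src = y ∧ ε.tgt = x)

def Val (x : Vx) : Prop := ∃ y, Adj n C k cls x y

def Draw : Prop := ∃ (p : Vx → P) (S : Finset (Option ℝ)), S.card ≤ k ∧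
  (∀ x y, Val n C k cls x → Val n C k cls y → p x = p y → x = y) ∧
  (∀ x y w, Adj n C k cls x y → Val n C k cls w → p w ∉ openSegment ℝ (p x) (p y)) ∧
  ∀ x y, Adj n C k cls x y → sl (p y - p x) ∈ S

def Rz (D : ℕ → P) (Y : ℕ → ℕ → P) : Prop :=
  (∀ i < 6 * n, Ray (D (cls i)) (Y (i / 6) (ep (i % 6) true) - Y (i / 6) (ep (i % 6) false))) ∧
    ∀ j < n, ∀ s < 4, ∀ t < 4, ∀ r < 4, s ≠ t → s ≠ r → t ≠ r → cr (Y j t - Y j s) (Y j r - Y j s) ≠ 0

variable {n C k cls}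

theorem Adj.symm {x y} (h : Adj n C k cls x y) : Adj n C k cls y x := let ⟨ε, a, b⟩ := h; ⟨ε, a, b.symm⟩

theorem Adj.ne {x y} (h : Adj n C k cls x y) : x ≠ y := by
  obtain ⟨ε, -, ⟨rfl, rfl⟩ | ⟨rfl, rfl⟩⟩ := h
  exacts [ε.ne, ε.ne.symm]

theorem adj_of {ε : Eg} (h : ε.ok n C k cls) : Adj n C k cls ε.src ε.tgt := ⟨ε, h, Or.inl ⟨rfl, rfl⟩⟩

theorem dr_of {V : Type} {A : V → V → Prop} {p : V → P} {S : Finset (Option ℝ)} (sy : ∀ {x y}, A x y → A y x)
    (ir : ∀ {x y}, A x y → x ≠ y) (h1 : ∀ x y, (∃ z, A x z) → (∃ z, A y z) → p x = p y → x = y)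
    (h2 : ∀ x y w, A x y → (∃ z, A w z) → p w ∉ openSegment ℝ (p x) (p y)) (h3 : ∀ x y, A x y → sl (p y - p x) ∈ S) :
    Dr A p S := by
  have key : ∀ {x y z} (c : ℝ), A x y → A x z → 0 < c → c < 1 → p z - p x ≠ c • (p y - p x) :=
    fun {x y z} c a b c0 c1 q => h2 x y z a ⟨_, sy b⟩ ⟨1 - c, c, by linarith, c0, by ring, by
      rw [sub_eq_iff_eq_add] at q; rw [q]; module⟩
  refine ⟨sy, fun a q => ir a (h1 _ _ ⟨_, a⟩ ⟨_, sy a⟩ (sub_eq_zero.1 q).symm), fun {x y z} a b hn ⟨c, hc, q⟩ => ?_,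
    fun a => h3 _ _ a⟩
  rcases lt_trichotomy c 1 with g | rfl | g
  · exact key c a b hc g q
  · exact hn (h1 _ _ ⟨_, sy a⟩ ⟨_, sy b⟩ (by rw [one_smul, sub_left_inj] at q; exact q.symm))
  · exact key c⁻¹ b a (inv_pos.2 hc) (inv_lt_one_of_one_lt₀ g) (by rw [q, smul_smul, inv_mul_cancel₀ hc.ne', one_smul])

theorem ep_ex : ∀ s < 4, ∀ t < 4, s ≠ t → ∃ r < 6, ∃ σ, ep r σ = s ∧ ep r (!σ) = t := by decide

theorem sound (hk : 3 ≤ k) (hc : ∀ i < 6 * n, cls i < C) (h : Draw n C k cls) : ∃ D Y, Rz n cls D Y := by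
  obtain ⟨p, S, hS, h1, h2, h3⟩ := h
  have D : Dr (Adj n C k cls) p S := dr_of Adj.symm Adj.ne h1 h2 h3
  have ad : ∀ β s κ, β.ok n C → κ.ok k → (κ = .md → β.md cls) → Adj n C k cls (.sp β s) (tg β s κ) :=
    fun β s κ a b c => adj_of (ε := .hub β s κ) ⟨a, b, c⟩
  have bk : ∀ β : Bk, β.ok n C → ∃ f m M, Book (Adj n C k cls) p S (.sp β false) (.sp β true)
      (fun z => ∃ t ∈ (Finset.univ ×ˢ Finset.range (k - 2) : Finset (Bool × ℕ)), z = .pg β t.1 t.2) f m M :=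
    fun β o => book D hk hS (ad β false .spn o trivial (by simp)) (fun s _ t _ q => by simpa [Prod.ext_iff] using q)
      (by simp) fun t ht => by
        have : t.2 < k - 2 := by simpa using ht
        exact ⟨ad β false (.pg t.1 t.2) o this (by simp), ad β true (.pg t.1 t.2) o this (by simp)⟩
  have n1 : ∀ β s κ, κ ≠ .spn → tg β s κ ≠ .sp β (!s) := fun β s κ a q => a (tg_inj (κ' := .spn) q)
  have n2 : ∀ β s κ, (∀ z t, κ ≠ .pg z t) →
      ¬∃ t ∈ (Finset.univ ×ˢ Finset.range (k - 2) : Finset (Bool × ℕ)), tg β s κ = .pg β t.1 t.2 :=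
    fun β s κ a ⟨t, _, q⟩ => a _ _ (tg_inj (κ' := .pg t.1 t.2) q)
  have tr : ∀ β κ, β.ok n C → κ = .lo ∨ κ = .up → sl (p (tg β true κ) - p (tg β false κ)) ∈ S →
      Ray (p (.sp β true) - p (.sp β false)) (p (tg β true κ) - p (tg β false κ)) := fun β κ o a s => by
    obtain ⟨f, m, M, B⟩ := bk β o
    rcases a with rfl | rfl <;>
    exact B.trap (ad _ _ _ o trivial (by simp)) (n1 _ false _ (by simp)) (n2 _ _ _ (by simp))
      (ad _ _ _ o trivial (by simp)) (n1 _ true _ (by simp)) (n2 _ _ _ (by simp)) s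
  have st : ∀ β, β.ok n C → β.md cls → (∀ κ, κ = .lo ∨ κ = .up → sl (p (tg β true κ) - p (tg β false κ)) ∈ S ∧
      ∃ w, Adj n C k cls (tg β false κ) w ∧ w ≠ .sp β false ∧
        Ray (p (tg β true κ) - p (tg β false κ)) (p w - p (tg β false κ))) →
      Ray (p (.sp β true) - p (.sp β false)) (p (.sp β false) - p (tg β false .md)) ∧
      Ray (p (.sp β true) - p (.sp β false)) (p (tg β true .md) - p (.sp β true)) := fun β o md hs => by
    obtain ⟨f, m, M, B⟩ := bk β o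
    let κ : Fin 3 → K := ![.md, .lo, .up]
    have k1 : ∀ i, (κ i).ok k := fun i => by fin_cases i <;> trivial
    have k2 : ∀ i, κ i ≠ .spn := fun i => by fin_cases i <;> simp [κ]
    have k3 : ∀ i z t, κ i ≠ .pg z t := fun i => by fin_cases i <;> simp [κ]
    have k4 : Function.Injective κ := fun i j => by fin_cases i <;> fin_cases j <;> simp [κ]
    have k5 : ∀ i, i ≠ 0 → κ i = .lo ∨ κ i = .up := fun i => by fin_cases i <;> simp [κ]
    exact B.straight D (y := fun i => tg β false (κ i)) (z := fun i => tg β true (κ i))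
      (fun i => ad _ _ _ o (k1 i) fun _ => md) (fun i => n1 _ false _ (k2 i)) (fun i => n2 _ _ _ (k3 i))
      (fun i => ad _ _ _ o (k1 i) fun _ => md) (fun i => n1 _ true _ (k2 i)) (fun i => n2 _ _ _ (k3 i))
      (fun i j q => k4 (tg_inj q)) (fun i j q => k4 (tg_inj q))
      fun i hi => ⟨tr β _ o (k5 i hi) (hs _ (k5 i hi)).1, (hs _ (k5 i hi)).2⟩
  have ar : ∀ c < C, ∀ i ≤ 6 * n, Adj n C k cls (.rg c i false) (.rg c i true) :=
    fun c a i b => adj_of (ε := .br c i) ⟨a, b⟩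
  have r1 : ∀ c < C, ∀ i < 6 * n, Ray (p (.sp (.l c i) true) - p (.sp (.l c i) false))
      (p (.rg c i true) - p (.rg c i false)) := fun c a i b =>
    tr (.l c i) .lo ⟨a, b⟩ (Or.inl rfl) (D.sl (ar c a i b.le))
  have r2 : ∀ c < C, ∀ i < 6 * n, Ray (p (.sp (.l c i) true) - p (.sp (.l c i) false))
      (p (.rg c (i + 1) true) - p (.rg c (i + 1) false)) := fun c a i b =>
    tr (.l c i) .up ⟨a, b⟩ (Or.inr rfl) (D.sl (ar c a (i + 1) b))
  have r3 : ∀ c < C, ∀ i ≤ 6 * n, Ray (p (.rg c 0 true) - p (.rg c 0 false))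
      (p (.rg c i true) - p (.rg c i false)) := fun c a i b => by
    induction i with
    | zero => exact Ray.refl _
    | succ i ih => exact ((ih (by omega)).trans (r1 c a i b).symm).trans (r2 c a i b)
  have sum : ∀ {e a b c d : P}, Ray e (b - a) → Ray e (c - b) → Ray e (d - c) → Ray e (d - a) :=
    fun {e a b c d} x y z => by
      have := (x.add y).add z
      rwa [show b - a + (c - b) + (d - c) = d - a by abel] at this
  have l1 := fun i (b : i < 6 * n) => st (.l (cls i) i) ⟨hc i b, b⟩ rfl fun κ a => by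
    rcases a with rfl | rfl
    · exact ⟨D.sl (ar _ (hc i b) i b.le), _, ar _ (hc i b) i b.le, by simp, Ray.refl _⟩
    · exact ⟨D.sl (ar _ (hc i b) (i + 1) b), _, ar _ (hc i b) (i + 1) b, by simp, Ray.refl _⟩
  have l2 : ∀ i < 6 * n, Ray (p (.sp (.l (cls i) i) true) - p (.sp (.l (cls i) i) false))
      (p (.up i true) - p (.up i false)) := fun i b => sum (l1 i b).1 (Ray.refl _) (l1 i b).2
  have l3 : ∀ i < 6 * n, sl (p (.up i true) - p (.up i false)) ∈ S := fun i b => by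
    rw [(l2 i b).sl]; exact D.sl (ad (.l (cls i) i) false .spn ⟨hc i b, b⟩ trivial (by simp))
  have e1 := fun i (b : i < 6 * n) => st (.e i) b trivial fun κ a => by
    rcases a with rfl | rfl
    · have a := adj_of (n := n) (C := C) (k := k) (cls := cls) (ε := .bl i) b
      exact ⟨D.sl a, _, a, by simp [Eg.tgt], Ray.refl _⟩
    · exact ⟨l3 i b, _, (ad (.l (cls i) i) false .md ⟨hc i b, b⟩ trivial fun _ => rfl).symm, by simp,
        (l2 i b).symm.trans (l1 i b).1⟩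
  have e2 : ∀ i < 6 * n, Ray (p (.sp (.e i) true) - p (.sp (.e i) false))
      (p (.X (i / 6) (ep (i % 6) true)) - p (.X (i / 6) (ep (i % 6) false))) :=
    fun i b => sum (e1 i b).1 (Ray.refl _) (e1 i b).2
  have e3 : ∀ i < 6 * n, ∀ σ, Ray (p (.X (i / 6) (ep (i % 6) (!σ))) - p (.X (i / 6) (ep (i % 6) σ)))
      (p (.sp (.e i) σ) - p (.X (i / 6) (ep (i % 6) σ))) := fun i b σ => by
    cases σ
    · exact (e2 i b).symm.trans (e1 i b).1
    · simpa [tg] using ((e2 i b).symm.trans (e1 i b).2).neg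
  have e4 : ∀ j < n, ∀ s < 4, ∀ t < 4, s ≠ t → ∃ r σ, ep r (!σ) = t ∧ r < 6 ∧
      Adj n C k cls (.X j s) (.sp (.e (6 * j + r)) σ) ∧
      Ray (p (.X j t) - p (.X j s)) (p (.sp (.e (6 * j + r)) σ) - p (.X j s)) := fun j hj s hs t ht q => by
    obtain ⟨r, hr, σ, a, b⟩ := ep_ex s hs t ht q
    have c := e3 (6 * j + r) (by omega) σ
    have d := (ad (.e (6 * j + r)) σ .md (show _ < _ by omega) trivial fun _ => trivial).symm
    simp only [tg, show (6 * j + r) / 6 = j by omega, show (6 * j + r) % 6 = r by omega, a, b] at c d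
    exact ⟨r, σ, b, hr, d, c⟩
  have e5 : ∀ j < n, ∀ s < 4, ∀ t < 4, s ≠ t → p (.X j t) - p (.X j s) ≠ 0 := fun j hj s hs t ht q z => by
    obtain ⟨r, σ, -, -, a, c, -, b⟩ := e4 j hj s hs t ht q
    exact D.ne a (by rw [b, z, smul_zero])
  have e6 : ∀ j < n, ∀ s < 4, ∀ t < 4, ∀ r < 4, s ≠ t → s ≠ r → t ≠ r →
      ¬Ray (p (.X j t) - p (.X j s)) (p (.X j r) - p (.X j s)) := fun j hj s hs t ht r hr q1 q2 q3 z => by
    obtain ⟨r1, σ1, a1, -, b1, c1⟩ := e4 j hj s hs t ht q1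
    obtain ⟨r2, σ2, a2, -, b2, c2⟩ := e4 j hj s hs r hr q2
    refine D.ray b1 b2 (fun q => q3 ?_) ((c1.symm.trans z).trans c2)
    simp only [Vx.sp.injEq, Bk.e.injEq, add_right_inj] at q
    rw [← a1, ← a2, q.1, q.2]
  refine ⟨fun c => p (.rg c 0 true) - p (.rg c 0 false), fun j s => p (.X j s), fun i b => ?_,
    fun j hj s hs t ht r hr q1 q2 q3 => tri (e5 j hj s hs t ht q1) (e5 j hj s hs r hr q2)
      (e6 j hj s hs t ht r hr q1 q2 q3) (e6 j hj t ht s hs r hr q1.symm q3 q2)⟩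
  exact ((((r3 _ (hc i b) i b.le).trans (r1 _ (hc i b) i b).symm).trans (l2 i b)).trans
    (tr (.e i) .up b (Or.inr rfl) (l3 i b)).symm).trans (e2 i b)

end Pool.Agent.H.MP_09bf15_lc
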