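import Pool.Agent.H.MP_09bf15_lc.C

/-! The family of drawings and its deformations. -/

namespace Pool.Agent.H.MP_09bf15_lc

inductive Par
  | tx (j : ℕ) | ty (j : ℕ) | al (i : ℕ) | ln (i : ℕ) | ga (i : ℕ) | M (c : ℕ) | p (c i : ℕ) | q (c i : ℕ)
  deriving DecidableEq

variable (cls : ℕ → ℕ) (h : ℕ → Sh) (Y : ℕ → ℕ → P) (θ : Par → ℝ)

def Bk.cl : Bk → ℕ
  | .e i => cls i
  | .l c _ => c

def xp (j s : ℕ) : P := Y j s + (θ (.tx j), θ (.ty j))

def uu : Bk → P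
  | .e i => xp Y θ (i / 6) (ep (i % 6) false) + θ (.al i) • (h (cls i)).e
  | .l c i => θ (.p c (i + 1)) • (h c).a + θ (.q c i) • (h c).b

def LL : Bk → ℝ
  | .e i => θ (.ln i)
  | .l c i => θ (.M c) - θ (.p c (i + 1)) - θ (.q c i)

def hh (i : ℕ) : ℝ := θ (.p (cls i) (i + 1)) - θ (.q (cls i) i) - cr (h (cls i)).e (uu cls h Y θ (.e i))

def pos : Vx → P
  | .X j s => xp Y θ j s
  | .sp β false => uu cls h Y θ β
  | .sp β true => uu cls h Y θ β + LL θ β • (h (β.cl cls)).e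
  | .pg β z t => uu cls h Y θ β + LL θ β • (h (β.cl cls)).w z t
  | .lo i false => uu cls h Y θ (.e i) - θ (.ga i) • (h (cls i)).a
  | .lo i true => uu cls h Y θ (.e i) + θ (.ln i) • (h (cls i)).e + θ (.ga i) • (h (cls i)).b
  | .up i false => uu cls h Y θ (.e i) - hh cls h Y θ i • (h (cls i)).b
  | .up i true => uu cls h Y θ (.e i) + θ (.ln i) • (h (cls i)).e + hh cls h Y θ i • (h (cls i)).a
  | .rg c i false => θ (.p c i) • (h c).a + θ (.q c i) • (h c).b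
  | .rg c i true => (θ (.M c) - θ (.q c i)) • (h c).a + (θ (.M c) - θ (.p c i)) • (h c).b

def dir : Eg → P
  | .hub β s κ => (h (β.cl cls)).R s κ
  | .bl i => (h (cls i)).e
  | .br c _ => (h c).e

def el (i : ℕ) : ℝ := cr (Y (i / 6) (ep (i % 6) true) - Y (i / 6) (ep (i % 6) false)) (h (cls i)).a

def len : Eg → ℝ
  | .hub β _ .spn => LL θ β
  | .hub β _ (.pg _ _) => LL θ β
  | .hub (.e i) _ .lo => θ (.ga i)
  | .hub (.e i) _ .up => hh cls h Y θ i
  | .hub (.e i) false .md => θ (.al i)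
  | .hub (.e i) true .md => el cls h Y i - θ (.al i) - θ (.ln i)
  | .hub (.l c i) _ .lo => θ (.p c (i + 1)) - θ (.p c i)
  | .hub (.l c i) _ .up => θ (.q c i) - θ (.q c (i + 1))
  | .hub (.l c i) false .md => θ (.p c (i + 1)) - cr (h c).b (uu cls h Y θ (.e i))
  | .hub (.l c i) true .md =>
      cr (uu cls h Y θ (.e i) + θ (.ln i) • (h c).e) (h c).a - θ (.M c) + θ (.p c (i + 1))
  | .bl i => θ (.ln i) + θ (.ga i)
  | .br c i => θ (.M c) - θ (.p c i) - θ (.q c i)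

theorem pos_lin (δ : Par → ℝ) (t : ℝ) (w) : pos cls h Y (θ + t • δ) w = pos cls h Y θ w + t • pos cls h 0 δ w := by
  rcases w with _ | ⟨_ | _, _ | _⟩ | ⟨_ | _, _, _⟩ | ⟨_, _ | _⟩ | ⟨_, _ | _⟩ | ⟨_, _, _ | _⟩ <;>
    ext <;> simp [pos, uu, LL, hh, xp, cr] <;> ring

theorem len_lin (δ : Par → ℝ) (t : ℝ) (ε) : len cls h Y (θ + t • δ) ε = len cls h Y θ ε + t * len cls h 0 δ ε := by
  rcases ε with ⟨_ | _, _ | _, _ | _ | _ | _ | _⟩ | _ | _ <;> simp [len, uu, LL, hh, xp, el, cr] <;> ring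

def bm (τ : Par) : Par → ℝ := fun σ => if σ = τ then 1 else 0

def bT (j : ℕ) (v : P) : Par → ℝ := fun σ => if σ = .tx j then v.1 else if σ = .ty j then v.2 else 0

theorem mvE (i s w) : w = .sp (.e i) s ∨ (∃ κ, κ ≠ .md ∧ w = tg (.e i) s κ) ∨ ∃ δ,
    pos cls h 0 δ w - pos cls h 0 δ (.sp (.e i) s) = (h (cls i)).e ∨
    pos cls h 0 δ w - pos cls h 0 δ (.sp (.e i) s) = -(h (cls i)).e := by
  have A : pos cls h 0 (bm (.al i)) w = 0 → ∃ δ, pos cls h 0 δ w - pos cls h 0 δ (.sp (.e i) s) = (h (cls i)).e ∨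
      pos cls h 0 δ w - pos cls h 0 δ (.sp (.e i) s) = -(h (cls i)).e := fun q =>
    ⟨bm (.al i), Or.inr (by rw [q]; cases s <;> simp [pos, uu, LL, xp, bm])⟩
  rcases w with ⟨j, r⟩ | ⟨i' | ⟨c, i'⟩, s'⟩ | ⟨i' | ⟨c, i'⟩, z, t⟩ | ⟨i', s'⟩ | ⟨i', s'⟩ | ⟨c, i', s'⟩
  · exact Or.inr (Or.inr (A (by simp [pos, xp, bm])))
  · by_cases q : i' = i
    · subst q
      by_cases r : s' = s
      · exact Or.inl (by rw [r])
      · exact Or.inr (Or.inl ⟨.spn, by simp, by simp [tg, Bool.eq_not, r]⟩)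
    · exact Or.inr (Or.inr (A (by cases s' <;> simp [pos, uu, LL, xp, bm, q])))
  · exact Or.inr (Or.inr (A (by cases s' <;> simp [pos, uu, LL, bm])))
  · by_cases q : i' = i
    · exact Or.inr (Or.inl ⟨.pg z t, by simp, by simp [tg, q]⟩)
    · exact Or.inr (Or.inr (A (by simp [pos, uu, LL, xp, bm, q])))
  · exact Or.inr (Or.inr (A (by simp [pos, uu, LL, bm])))
  · by_cases q : i' = i
    · subst q
      by_cases r : s' = s
      · exact Or.inr (Or.inl ⟨.lo, by simp, by simp [tg, r]⟩)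
      · exact Or.inr (Or.inr ⟨bm (.ln i'), by cases s <;> cases s' <;> simp_all [pos, uu, LL, xp, bm, Bk.cl]⟩)
    · exact Or.inr (Or.inr (A (by cases s' <;> simp [pos, uu, xp, bm, q])))
  · by_cases q : i' = i
    · subst q
      by_cases r : s' = s
      · exact Or.inr (Or.inl ⟨.up, by simp, by simp [tg, r]⟩)
      · exact Or.inr (Or.inr ⟨bm (.ln i'), by
          cases s <;> cases s' <;> simp_all [pos, uu, LL, hh, xp, bm, Bk.cl, cr]⟩)
    · exact Or.inr (Or.inr (A (by cases s' <;> simp [pos, uu, hh, xp, bm, q, cr])))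
  · exact Or.inr (Or.inr (A (by cases s' <;> simp [pos, bm])))

theorem mvL (c i s w) (ad : (h c).a + (h c).b = (h c).e) : w = .sp (.l c i) s ∨ (∃ κ, κ ≠ .md ∧ w = tg (.l c i) s κ) ∨ ∃ δ,
    pos cls h 0 δ w - pos cls h 0 δ (.sp (.l c i) s) = (h c).e ∨
    pos cls h 0 δ w - pos cls h 0 δ (.sp (.l c i) s) = -(h c).e := by
  have A : pos cls h 0 (bm (.p c (i + 1)) + bm (.q c i)) w = 0 → ∃ δ,
      pos cls h 0 δ w - pos cls h 0 δ (.sp (.l c i) s) = (h c).e ∨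
      pos cls h 0 δ w - pos cls h 0 δ (.sp (.l c i) s) = -(h c).e := fun q =>
    ⟨_, by
      rw [q]
      cases s
      · exact Or.inr (by simp [pos, uu, bm, ad])
      · exact Or.inl (by simp [pos, uu, LL, bm, Bk.cl, ad]; module)⟩
  rcases w with ⟨j, r⟩ | ⟨i' | ⟨c', i'⟩, s'⟩ | ⟨i' | ⟨c', i'⟩, z, t⟩ | ⟨i', s'⟩ | ⟨i', s'⟩ | ⟨c', i', s'⟩
  · exact Or.inr (Or.inr (A (by simp [pos, xp, bm])))
  · exact Or.inr (Or.inr (A (by cases s' <;> simp [pos, uu, LL, xp, bm])))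
  · by_cases q : c' = c ∧ i' = i
    · obtain ⟨rfl, rfl⟩ := q
      by_cases r : s' = s
      · exact Or.inl (by rw [r])
      · exact Or.inr (Or.inl ⟨.spn, by simp, by simp [tg, Bool.eq_not, r]⟩)
    · exact Or.inr (Or.inr (A (by cases s' <;> simp [pos, uu, LL, bm, q])))
  · exact Or.inr (Or.inr (A (by simp [pos, uu, LL, xp, bm])))
  · by_cases q : c' = c ∧ i' = i
    · exact Or.inr (Or.inl ⟨.pg z t, by simp, by simp [tg, q]⟩)
    · exact Or.inr (Or.inr (A (by simp [pos, uu, LL, bm, q])))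
  · exact Or.inr (Or.inr (A (by cases s' <;> simp [pos, uu, xp, bm])))
  · exact Or.inr (Or.inr (A (by cases s' <;> simp [pos, uu, hh, xp, bm, cr])))
  · by_cases q : c' = c ∧ (i' = i ∨ i' = i + 1)
    · by_cases r : s' = s
      · obtain ⟨rfl, rfl | rfl⟩ := q
        · exact Or.inr (Or.inl ⟨.lo, by simp, by simp [tg, r]⟩)
        · exact Or.inr (Or.inl ⟨.up, by simp, by simp [tg, r]⟩)
      · obtain ⟨rfl, -⟩ := q
        exact Or.inr (Or.inr ⟨bm (.M c'), by cases s <;> cases s' <;> simp_all [pos, uu, LL, bm, Bk.cl]⟩)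
    · have q1 : ¬(c' = c ∧ i' = i) := by tauto
      have q2 : ¬(c' = c ∧ i' = i + 1) := by tauto
      exact Or.inr (Or.inr (A (by cases s' <;> simp [pos, bm, q1, q2])))

theorem mvB (i w) (o : cr (h (cls i)).e (h (cls i)).a = 1) : w = .lo i false ∨ w = .lo i true ∨ ∃ δ,
    cr (h (cls i)).e (pos cls h 0 δ w - pos cls h 0 δ (.lo i false)) ≠ 0 := by
  have A : pos cls h 0 (bm (.ga i)) w = 0 → ∃ δ, cr (h (cls i)).e (pos cls h 0 δ w - pos cls h 0 δ (.lo i false)) ≠ 0 :=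
    fun q => ⟨_, by rw [q]; simp [pos, uu, xp, bm, o, Prod.mk_zero_zero]⟩
  rcases w with ⟨j, r⟩ | ⟨i' | ⟨c, i'⟩, s'⟩ | ⟨i' | ⟨c, i'⟩, z, t⟩ | ⟨i', s'⟩ | ⟨i', s'⟩ | ⟨c, i', s'⟩
  · exact Or.inr (Or.inr (A (by simp [pos, xp, bm])))
  · exact Or.inr (Or.inr (A (by cases s' <;> simp [pos, uu, LL, xp, bm])))
  · exact Or.inr (Or.inr (A (by cases s' <;> simp [pos, uu, LL, bm])))
  · exact Or.inr (Or.inr (A (by simp [pos, uu, LL, xp, bm])))
  · exact Or.inr (Or.inr (A (by simp [pos, uu, LL, bm])))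
  · by_cases q : i' = i
    · cases s' <;> simp [q]
    · exact Or.inr (Or.inr (A (by cases s' <;> simp [pos, uu, xp, bm, q])))
  · exact Or.inr (Or.inr (A (by cases s' <;> simp [pos, uu, hh, xp, bm, cr])))
  · exact Or.inr (Or.inr (A (by cases s' <;> simp [pos, bm])))

theorem mvR (c i w) (o : cr (h c).e (h c).a = 1) (o' : cr (h c).e (h c).b = -1) :
    w = .rg c i false ∨ w = .rg c i true ∨ ∃ δ, cr (h c).e (pos cls h 0 δ w - pos cls h 0 δ (.rg c i false)) ≠ 0 := by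
  have A : pos cls h 0 (bm (.q c i)) w = 0 → ∃ δ, cr (h c).e (pos cls h 0 δ w - pos cls h 0 δ (.rg c i false)) ≠ 0 :=
    fun q => ⟨_, by rw [q]; simp [pos, bm, cr_neg_r, o']⟩
  have B : pos cls h 0 (bm (.p c i)) w = 0 → ∃ δ, cr (h c).e (pos cls h 0 δ w - pos cls h 0 δ (.rg c i false)) ≠ 0 :=
    fun q => ⟨_, by rw [q]; simp [pos, bm, cr_neg_r, o]⟩
  rcases w with ⟨j, r⟩ | ⟨i' | ⟨c', i'⟩, s'⟩ | ⟨i' | ⟨c', i'⟩, z, t⟩ | ⟨i', s'⟩ | ⟨i', s'⟩ | ⟨c', i', s'⟩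
  · exact Or.inr (Or.inr (A (by simp [pos, xp, bm])))
  · exact Or.inr (Or.inr (A (by cases s' <;> simp [pos, uu, LL, xp, bm])))
  · by_cases q : i' = i
    · exact Or.inr (Or.inr (B (by cases s' <;> simp [pos, uu, LL, bm, q])))
    · exact Or.inr (Or.inr (A (by cases s' <;> simp [pos, uu, LL, bm, q])))
  · exact Or.inr (Or.inr (A (by simp [pos, uu, LL, xp, bm])))
  · by_cases q : i' = i
    · exact Or.inr (Or.inr (B (by simp [pos, uu, LL, bm, q])))
    · exact Or.inr (Or.inr (A (by simp [pos, uu, LL, bm, q])))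
  · exact Or.inr (Or.inr (A (by cases s' <;> simp [pos, uu, xp, bm])))
  · by_cases q : i' = i
    · exact Or.inr (Or.inr (B (by cases s' <;> simp [pos, uu, hh, xp, bm, cr, q])))
    · exact Or.inr (Or.inr (A (by cases s' <;> simp [pos, uu, hh, xp, bm, cr, q])))
  · by_cases q : c' = c ∧ i' = i
    · cases s' <;> simp [q]
    · exact Or.inr (Or.inr (A (by cases s' <;> simp [pos, bm, q])))

theorem mvH (c i s w) (o : cr (h c).e (h c).a = 1) (o' : cr (h c).e (h c).b = -1) :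
    w = .sp (.l c i) s ∨ (∃ κ, κ ≠ .md ∧ w = tg (.l c i) s κ) ∨ (cls i = c ∧ ∃ s', w = tg (.l c i) s' .md) ∨
      ∃ δ, cr (h c).e (pos cls h 0 δ w - pos cls h 0 δ (.sp (.l c i) s)) ≠ 0 := by
  have A : pos cls h 0 (bm (.q c i)) w = 0 → ∃ δ, cr (h c).e (pos cls h 0 δ w - pos cls h 0 δ (.sp (.l c i) s)) ≠ 0 :=
    fun q => ⟨_, by rw [q]; cases s <;> simp [pos, uu, LL, Bk.cl, bm, cr_neg_r, cr_add_r, cr_self, o']⟩
  have B : pos cls h 0 (bm (.p c (i + 1))) w = 0 →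
      ∃ δ, cr (h c).e (pos cls h 0 δ w - pos cls h 0 δ (.sp (.l c i) s)) ≠ 0 :=
    fun q => ⟨_, by rw [q]; cases s <;> simp [pos, uu, LL, Bk.cl, bm, cr_neg_r, cr_add_r, cr_self, o]⟩
  rcases w with ⟨j, r⟩ | ⟨i' | ⟨c', i'⟩, s'⟩ | ⟨i' | ⟨c', i'⟩, z, t⟩ | ⟨i', s'⟩ | ⟨i', s'⟩ | ⟨c', i', s'⟩
  · exact Or.inr (Or.inr (Or.inr (A (by simp [pos, xp, bm]))))
  · exact Or.inr (Or.inr (Or.inr (A (by cases s' <;> simp [pos, uu, LL, xp, bm]))))
  · by_cases q : c' = c ∧ i' = i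
    · obtain ⟨rfl, rfl⟩ := q
      by_cases r : s' = s
      · exact Or.inl (by rw [r])
      · exact Or.inr (Or.inl ⟨.spn, by simp, by simp [tg, Bool.eq_not, r]⟩)
    · exact Or.inr (Or.inr (Or.inr (A (by cases s' <;> simp [pos, uu, LL, bm, q]))))
  · exact Or.inr (Or.inr (Or.inr (A (by simp [pos, uu, LL, xp, bm]))))
  · by_cases q : c' = c ∧ i' = i
    · exact Or.inr (Or.inl ⟨.pg z t, by simp, by simp [tg, q]⟩)
    · exact Or.inr (Or.inr (Or.inr (A (by simp [pos, uu, LL, bm, q]))))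
  · exact Or.inr (Or.inr (Or.inr (A (by cases s' <;> simp [pos, uu, xp, bm]))))
  · by_cases q : cls i' = c ∧ i' = i
    · obtain ⟨rfl, rfl⟩ := q
      exact Or.inr (Or.inr (Or.inl ⟨rfl, s', rfl⟩))
    · exact Or.inr (Or.inr (Or.inr (A (by cases s' <;> simp [pos, uu, hh, xp, bm, cr, q]))))
  · by_cases q : i' = i
    · exact Or.inr (Or.inr (Or.inr (B (by cases s' <;> simp [pos, bm, q]))))
    · exact Or.inr (Or.inr (Or.inr (A (by cases s' <;> simp [pos, bm, q]))))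

variable {cls h Y} {n C k : ℕ} {S : Finset (Option ℝ)} {D : ℕ → P}

def Vx.ok (n C k : ℕ) : Vx → Prop
  | .X j s => j < n ∧ s < 4
  | .sp β _ => β.ok n C
  | .pg β _ t => β.ok n C ∧ t < k - 2
  | .lo i _ => i < 6 * n
  | .up i _ => i < 6 * n
  | .rg c i _ => c < C ∧ i ≤ 6 * n

theorem ep_lt : ∀ r < 6, ∀ s, ep r s < 4 := by decide

theorem ep_ne : ∀ r < 6, ep r false ≠ ep r true := by decide

theorem ep_other : ∀ r < 6, ∀ r' < 6, r' ≠ r → ∃ σ, ep r' σ ≠ ep r false ∧ ep r' σ ≠ ep r true := by decide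

theorem Eg.ok.vx {ε : Eg} (o : ε.ok n C k cls) : ε.src.ok n C k ∧ ε.tgt.ok n C k := by
  rcases ε with ⟨i | _, s, _ | _ | _ | _ | _⟩ | _ | _ <;>
    simp_all [Eg.ok, Eg.src, Eg.tgt, tg, Vx.ok, Bk.ok, K.ok]
  · exact ⟨by omega, ep_lt _ (by omega) _⟩
  · omega

theorem Good.b {d h} (G : Good S k d h) : cr h.e h.b = -1 := by
  have : h.b = h.e - h.a := by rw [← G.add]; abel
  rw [this, cr_sub_r, cr_self, G.one]; ring

theorem Good.ne {d h} (G : Good S k d h) : h.e ≠ 0 := ne_of_cr' (by rw [G.one]; exact one_ne_zero)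

theorem el_eq (G : ∀ i < 6 * n, Good S k (D (cls i)) (h (cls i))) (R : Rz n cls D Y) {i} (hi : i < 6 * n) :
    0 < el cls h Y i ∧
      Y (i / 6) (ep (i % 6) true) - Y (i / 6) (ep (i % 6) false) = el cls h Y i • (h (cls i)).e := by
  obtain ⟨c, hc, q⟩ := (G i hi).dir.symm.trans (R.1 i hi)
  have : el cls h Y i = c := by rw [el, q, cr_smul_l, (G i hi).one, mul_one]
  rw [this]
  exact ⟨hc, q⟩

theorem off (G : ∀ i < 6 * n, Good S k (D (cls i)) (h (cls i))) (R : Rz n cls D Y) {i} (hi : i < 6 * n) {r} (hr : r < 4)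
    (h1 : r ≠ ep (i % 6) false) (h2 : r ≠ ep (i % 6) true) :
    cr (h (cls i)).e (Y (i / 6) r - Y (i / 6) (ep (i % 6) false)) ≠ 0 := fun q => by
  have := R.2 (i / 6) (by omega) _ (ep_lt (i % 6) (by omega) false) _ (ep_lt (i % 6) (by omega) true) r hr
    (ep_ne _ (by omega)) h1.symm h2.symm
  rw [(el_eq G R hi).2, cr_smul_l, q, mul_zero] at this
  exact this rfl

theorem mvG (G : ∀ i < 6 * n, Good S k (D (cls i)) (h (cls i))) (R : Rz n cls D Y) {i} (hi : i < 6 * n) (s) {w : Vx}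
    (o : w.ok n C k) : w = .sp (.e i) s ∨ (∃ κ, κ ≠ .md ∧ w = tg (.e i) s κ) ∨ (∃ s', w = tg (.e i) s' .md) ∨
      (∃ δ, cr (h (cls i)).e (pos cls h 0 δ w - pos cls h 0 δ (.sp (.e i) s)) ≠ 0) ∨
      ∀ θ, cr (h (cls i)).e (pos cls h Y θ w - pos cls h Y θ (.sp (.e i) s)) ≠ 0 := by
  have o1 := (G i hi).one
  have o2 := (G i hi).b
  have A : pos cls h 0 (bT (i / 6) (h (cls i)).a) w = 0 →
      ∃ δ, cr (h (cls i)).e (pos cls h 0 δ w - pos cls h 0 δ (.sp (.e i) s)) ≠ 0 :=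
    fun q => ⟨_, by rw [q]; cases s <;> simp [pos, uu, LL, xp, bT, cr_neg_r, o1]⟩
  have B : ∀ τ, (∀ j, τ ≠ .tx j) → (∀ j, τ ≠ .ty j) → τ ≠ .al i → cr (h (cls i)).e (pos cls h 0 (bm τ) w) ≠ 0 →
      ∃ δ, cr (h (cls i)).e (pos cls h 0 δ w - pos cls h 0 δ (.sp (.e i) s)) ≠ 0 := fun τ a b c q =>
    ⟨bm τ, by
      have : cr (h (cls i)).e (pos cls h 0 (bm τ) (.sp (.e i) s)) = 0 := by
        have z : uu cls h 0 (bm τ) (.e i) = 0 := by simp [uu, xp, bm, (a _).symm, (b _).symm, c.symm]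
        cases s <;> simp only [pos, z, cr_zero_r, Bk.cl, zero_add, cr_smul_r, cr_self, mul_zero]
      rwa [cr_sub_r, this, sub_zero]⟩
  have B2 : ∀ τ τ' x y, (∀ j, τ ≠ .tx j) → (∀ j, τ ≠ .ty j) → τ ≠ .al i → (∀ j, τ' ≠ .tx j) → (∀ j, τ' ≠ .ty j) →
      τ' ≠ .al i → pos cls h 0 (bm τ) w = x → pos cls h 0 (bm τ') w = y → cr x y ≠ 0 →
      ∃ δ, cr (h (cls i)).e (pos cls h 0 δ w - pos cls h 0 δ (.sp (.e i) s)) ≠ 0 :=
    fun τ τ' x y a b c a' b' c' p q r => (transv (G i hi).ne r).elim (fun z => B τ a b c (p ▸ z))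
      fun z => B τ' a' b' c' (q ▸ z)
  rcases w with ⟨j, r⟩ | ⟨i' | ⟨c, i'⟩, s'⟩ | ⟨i' | ⟨c, i'⟩, z, t⟩ | ⟨i', s'⟩ | ⟨i', s'⟩ | ⟨c, i', s'⟩
  · by_cases q : j = i / 6
    · subst q
      by_cases q1 : r = ep (i % 6) false
      · exact Or.inr (Or.inr (Or.inl ⟨false, by simp [tg, q1]⟩))
      by_cases q2 : r = ep (i % 6) true
      · exact Or.inr (Or.inr (Or.inl ⟨true, by simp [tg, q2]⟩))
      refine Or.inr (Or.inr (Or.inr (Or.inr fun θ z => off G R hi o.2 q1 q2 ?_)))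
      rw [← z]
      cases s <;> simp [pos, uu, LL, xp, Bk.cl, cr] <;> ring
    · exact Or.inr (Or.inr (Or.inr (Or.inl (A (by simp [pos, xp, bT, q])))))
  · by_cases q : i' = i
    · subst q
      by_cases r : s' = s
      · exact Or.inl (by rw [r])
      · exact Or.inr (Or.inl ⟨.spn, by simp, by simp [tg, Bool.eq_not, r]⟩)
    by_cases q1 : i' / 6 = i / 6
    · by_cases q2 : cr (h (cls i)).e (h (cls i')).e = 0
      · obtain ⟨σ, a, b⟩ := ep_other (i % 6) (by omega) (i' % 6) (by omega) (by omega)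
        refine Or.inr (Or.inr (Or.inr (Or.inr fun θ z => off G R hi (ep_lt (i' % 6) (by omega) σ) a b ?_)))
        have e := (el_eq G R (show i' < 6 * n from o)).2
        rw [q1] at e
        have e2 : cr (h (cls i)).e (Y (i / 6) (ep (i' % 6) σ) - Y (i / 6) (ep (i' % 6) false)) = 0 := by
          cases σ
          · rw [sub_self, cr_zero_r]
          · rw [e, cr_smul_r, q2, mul_zero]
        cases s <;> cases s' <;>
        · simp only [pos, uu, LL, xp, Bk.cl, q1, cr_sub_r, cr_add_r, cr_smul_r, cr_self, q2] at z e2 ⊢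
          linarith
      · exact Or.inr (Or.inr (Or.inr (Or.inl (B (.al i') (by simp) (by simp) (by simpa)
          (by cases s' <;> simpa [pos, uu, LL, xp, bm, Prod.mk_zero_zero] using q2)))))
    · exact Or.inr (Or.inr (Or.inr (Or.inl (A (by cases s' <;> simp [pos, uu, LL, xp, bT, q1])))))
  · exact Or.inr (Or.inr (Or.inr (Or.inl (A (by cases s' <;> simp [pos, uu, LL, bT])))))
  · by_cases q : i' = i
    · exact Or.inr (Or.inl ⟨.pg z t, by simp, by simp [tg, q]⟩)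
    · exact Or.inr (Or.inr (Or.inr (Or.inl (B2 (.al i') (.ln i') _ _ (by simp) (by simp) (by simpa) (by simp) (by simp)
        (by simp) (by simp [pos, uu, LL, xp, bm]) (by simp [pos, uu, LL, xp, bm, Bk.cl]) ((G i' o.1).wne z t o.2)))))
  · exact Or.inr (Or.inr (Or.inr (Or.inl (A (by simp [pos, uu, LL, bT])))))
  · by_cases q : i' = i
    · subst q
      exact Or.inr (Or.inr (Or.inr (Or.inl (B (.ga i') (by simp) (by simp) (by simp)
        (by cases s' <;> simp [pos, uu, xp, bm, Prod.mk_zero_zero, cr_neg_r, o1, o2])))))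
    · refine Or.inr (Or.inr (Or.inr (Or.inl (B2 (.al i') (.ga i') (h (cls i')).e _ (by simp) (by simp) (by simpa)
        (by simp) (by simp) (by simp) (by cases s' <;> simp [pos, uu, xp, bm]) rfl ?_))))
      cases s' <;> simp [pos, uu, xp, bm, Prod.mk_zero_zero, cr_neg_r, (G i' o).one, (G i' o).b]
  · by_cases q : i' = i
    · subst q
      exact Or.inr (Or.inr (Or.inr (Or.inl (B (.q (cls i') i') (by simp) (by simp) (by simp)
        (by cases s' <;> simp [pos, uu, hh, xp, bm, Prod.mk_zero_zero, cr_neg_r, cr_zero_r, o1, o2])))))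
    · refine Or.inr (Or.inr (Or.inr (Or.inl (B2 (.al i') (.q (cls i') i') (h (cls i')).e _ (by simp) (by simp)
        (by simpa) (by simp) (by simp) (by simp)
        (by cases s' <;> simp [pos, uu, hh, xp, bm, Prod.mk_zero_zero, cr_self]) rfl ?_))))
      cases s' <;> simp [pos, uu, hh, xp, bm, Prod.mk_zero_zero, cr_neg_r, cr_zero_r, (G i' o).one, (G i' o).b]
  · exact Or.inr (Or.inr (Or.inr (Or.inl (A (by cases s' <;> simp [pos, bT])))))

end Pool.Agent.H.MP_09bf15_lc
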