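import Pool.Agent.H.MP_09bf15_lc.D

/-! Completeness: a realisation gives a drawing. -/

namespace Pool.Agent.H.MP_09bf15_lc

variable {cls : ℕ → ℕ} {h : ℕ → Sh} {Y : ℕ → ℕ → P} {n C k : ℕ} {S : Finset (Option ℝ)} {D : ℕ → P}

theorem Good.ba {d h} (G : Good S k d h) : cr h.b h.a = 1 := by
  have : h.b = h.e - h.a := by rw [← G.add]; abel
  rw [this, cr_sub_l, cr_self, G.one]; ring

theorem Good.lv {d h} (G : Good S k d h) (u : P) : cr h.e u = cr h.b u - cr u h.a := by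
  rw [← G.add, cr_add_l, cr_comm u]; ring

theorem Bk.ok.cl {β : Bk} (hc : ∀ i < 6 * n, cls i < C) (o : β.ok n C) : β.cl cls < C := by
  cases β
  exacts [hc _ o, o.1]

theorem vec (hc : ∀ i < 6 * n, cls i < C) (G : ∀ c < C, Good S k (D c) (h c)) (R : Rz n cls D Y) (θ) {ε : Eg}
    (o : ε.ok n C k cls) : pos cls h Y θ ε.tgt - pos cls h Y θ ε.src = len cls h Y θ ε • dir cls h ε := by
  rcases ε with ⟨i | ⟨c, i⟩, s, κ⟩ | i | ⟨c, i⟩
  · have e := (el_eq (fun i a => G _ (hc i a)) R (show i < 6 * n from o.1)).2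
    rw [sub_eq_iff_eq_add] at e
    cases s <;> cases κ <;> simp only [Eg.src, Eg.tgt, tg, pos, len, dir, Sh.R, Bk.cl, LL, Bool.not_false, Bool.not_true]
    any_goals module
    · simp only [uu]; module
    · simp only [uu, xp, e]; module
  · have g := G c o.1.1
    have ad := g.add
    cases s <;> cases κ <;> simp only [Eg.src, Eg.tgt, tg, pos, len, dir, Sh.R, Bk.cl, Bool.not_false, Bool.not_true]
    any_goals module
    · obtain rfl : cls i = c := o.2.2 rfl
      have e := decomp g.ba (uu cls h Y θ (.e i))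
      rw [hh, g.lv]
      generalize cr (h (cls i)).b (uu cls h Y θ (.e i)) = x at *
      generalize cr (uu cls h Y θ (.e i)) (h (cls i)).a = y at *
      rw [e, ← ad, uu]; module
    · simp only [uu]; module
    · simp only [uu]; module
    · obtain rfl : cls i = c := o.2.2 rfl
      have e := decomp g.ba (uu cls h Y θ (.e i))
      rw [hh, g.lv, cr_add_l, cr_smul_l, g.one]
      generalize cr (h (cls i)).b (uu cls h Y θ (.e i)) = x at *
      generalize cr (uu cls h Y θ (.e i)) (h (cls i)).a = y at *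
      rw [e, ← ad, uu, LL]; module
    · simp only [uu, LL, ← ad]; module
    · simp only [uu, LL, ← ad]; module
  · simp only [Eg.src, Eg.tgt, pos, len, dir, ← (G _ (hc i o)).add]; module
  · simp only [Eg.src, Eg.tgt, pos, len, dir, ← (G _ o.1).add]; module

theorem feas (hc : ∀ i < 6 * n, cls i < C) (G : ∀ c < C, Good S k (D c) (h c)) (R : Rz n cls D Y) :
    ∃ θ, ∀ ε : Eg, ε.ok n C k cls → 0 < len cls h Y θ ε := by
  let u : ℕ → P := fun i => Y (i / 6) (ep (i % 6) false) + (el cls h Y i / 3) • (h (cls i)).e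
  let g : ℕ → ℝ := fun i => |cr (h (cls i)).e (u i)| + |cr (h (cls i)).b (u i)| +
    |cr (u i + (el cls h Y i / 3) • (h (cls i)).e) (h (cls i)).a|
  have g0 : ∀ i, 0 ≤ g i := fun i => by positivity
  obtain ⟨K, K0, hK⟩ : ∃ K, 0 ≤ K ∧ ∀ i < 6 * n, g i ≤ K :=
    ⟨∑ i ∈ Finset.range (6 * n), g i, Finset.sum_nonneg fun i _ => g0 i, fun i hi =>
      Finset.single_le_sum (fun i _ => g0 i) (Finset.mem_range.2 hi)⟩
  let θ : Par → ℝ := fun τ => match τ with
    | .tx _ => 0 | .ty _ => 0 | .al i => el cls h Y i / 3 | .ln i => el cls h Y i / 3 | .ga _ => 1 | .M _ => 0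
    | .p _ i => K + i | .q _ i => -K - i - 2
  have e : ∀ i, uu cls h Y θ (.e i) = u i := fun i => by simp [uu, xp, θ, u]
  have el0 := fun i (a : i < 6 * n) => (el_eq (fun i a => G _ (hc i a)) R a).1
  have b : ∀ i < 6 * n, cr (h (cls i)).e (u i) ≤ K ∧ cr (h (cls i)).b (u i) ≤ K ∧
      -cr (u i + (el cls h Y i / 3) • (h (cls i)).e) (h (cls i)).a ≤ K := fun i hi => by
    have := hK i hi
    have a1 := le_abs_self (cr (h (cls i)).e (u i))
    have a2 := le_abs_self (cr (h (cls i)).b (u i))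
    have a3 := neg_le_abs (cr (u i + (el cls h Y i / 3) • (h (cls i)).e) (h (cls i)).a)
    have a4 := abs_nonneg (cr (h (cls i)).e (u i))
    have a5 := abs_nonneg (cr (h (cls i)).b (u i))
    have a6 := abs_nonneg (cr (u i + (el cls h Y i / 3) • (h (cls i)).e) (h (cls i)).a)
    simp only [g] at this
    refine ⟨?_, ?_, ?_⟩ <;> linarith
  refine ⟨θ, fun ε o => ?_⟩
  rcases ε with ⟨i | ⟨c, i⟩, s, κ⟩ | i | ⟨c, i⟩
  · have := el0 i o.1
    have := b i o.1
    have : (0 : ℝ) ≤ i := by positivity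
    cases s <;> cases κ <;> simp only [len, LL, hh, e, θ] <;> push_cast <;> linarith
  · have : (0 : ℝ) ≤ i := by positivity
    have := b i o.1.2
    cases s <;> cases κ <;> simp only [len, LL, e, θ] <;> push_cast
    any_goals linarith
    all_goals
      obtain rfl : cls i = c := o.2.2 rfl
      linarith
  · have := el0 i o
    simp only [len, θ]; linarith
  · simp only [len, θ]; linarith

theorem seg {x y w : P} (q : w ∈ segment ℝ x y) : ∃ t : ℝ, 0 ≤ t ∧ t ≤ 1 ∧ w - x = t • (y - x) := by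
  obtain ⟨a, b, ha, hb, e, rfl⟩ := q
  obtain rfl : a = 1 - b := by linarith
  exact ⟨b, hb, by linarith, by module⟩

theorem cases (hc : ∀ i < 6 * n, cls i < C) (G : ∀ c < C, Good S k (D c) (h c)) (R : Rz n cls D Y) {ε : Eg}
    (o : ε.ok n C k cls) {w : Vx} (ow : w.ok n C k) (n1 : w ≠ ε.src) (n2 : w ≠ ε.tgt) :
    (∃ δ, cr (dir cls h ε) (pos cls h 0 δ w - pos cls h 0 δ ε.src) ≠ 0) ∨
      ∀ θ, (∀ ε : Eg, ε.ok n C k cls → 0 < len cls h Y θ ε) →
        pos cls h Y θ w ∉ segment ℝ (pos cls h Y θ ε.src) (pos cls h Y θ ε.tgt) := by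
  rcases ε with ⟨β, s, κ⟩ | i | ⟨c, i⟩
  rotate_left
  · exact Or.inl (((mvB cls h i w (G _ (hc i o)).one).resolve_left n1).resolve_left n2)
  · exact Or.inl (((mvR cls h c i w (G _ o.1).one (G _ o.1).b).resolve_left n1).resolve_left n2)
  have g := G _ (o.1.cl hc)
  have nb : ∀ κ', (Eg.hub β s κ').ok n C k cls → w = tg β s κ' →
      ∀ θ, (∀ ε : Eg, ε.ok n C k cls → 0 < len cls h Y θ ε) →
        pos cls h Y θ w ∉ segment ℝ (pos cls h Y θ (.sp β s)) (pos cls h Y θ (tg β s κ)) := fun κ' o' e θ p q => by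
    obtain ⟨t, t0, -, q⟩ := seg q
    have v1 := vec hc G R θ o
    have v2 := vec hc G R θ o'
    have p1 := p _ o
    have p2 := p _ o'
    simp only [Eg.src, Eg.tgt, dir] at v1 v2
    rw [e, v1, v2] at q
    rcases t0.eq_or_lt with rfl | t0
    · exact smul_ne_zero p2.ne' (g.nz s κ' o'.2.1) (by simpa using q)
    · refine g.ray s κ κ' o.2.1 o'.2.1 (fun r => n2 (r ▸ e)) (Ray.trans ⟨_, mul_pos t0 p1, ?_⟩ (Ray.symm ⟨_, p2, rfl⟩))
      rw [q, smul_smul]
  have ko : ∀ κ', κ' ≠ .md → w = tg β s κ' → (Eg.hub β s κ').ok n C k cls := fun κ' a e => by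
    refine ⟨o.1, ?_, fun r => (a r).elim⟩
    subst e
    cases κ' <;> try trivial
    cases β <;> exact ow.2
  by_cases hz : κ = .spn ∨ κ = .md
  · have dz : ∀ z, cr (h (β.cl cls)).e z ≠ 0 → cr (dir cls h (.hub β s κ)) z ≠ 0 := fun z q => by
      rcases hz with rfl | rfl <;> cases s <;> simpa [dir, Sh.R, cr_neg_l] using q
    have far : β.md cls → ∀ s', w = tg β s' .md → ∀ θ, (∀ ε : Eg, ε.ok n C k cls → 0 < len cls h Y θ ε) →
        pos cls h Y θ w ∉ segment ℝ (pos cls h Y θ (.sp β s)) (pos cls h Y θ (tg β s κ)) := fun md s' e => by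
      by_cases r : s' = s
      · exact nb .md ⟨o.1, trivial, fun _ => md⟩ (r ▸ e)
      intro θ p q
      obtain ⟨t, t0, t1, q⟩ := seg q
      have o1 : (Eg.hub β s .spn).ok n C k cls := ⟨o.1, trivial, by simp⟩
      have o2 : (Eg.hub β s' .md).ok n C k cls := ⟨o.1, trivial, fun _ => md⟩
      have v0 := vec hc G R θ o
      have v1 := vec hc G R θ o1
      have v2 := vec hc G R θ o2
      have p0 := p _ o
      have p1 := p _ o1
      have p2 := p _ o2
      have hs : s' = !s := by simpa [Bool.eq_not] using r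
      subst hs
      simp only [Eg.src, Eg.tgt, dir] at v0 v1 v2
      rw [show tg β s .spn = .sp β (!s) by cases β <;> rfl] at v1
      rw [v0, e, ← sub_add_sub_cancel _ (pos cls h Y θ (.sp β (!s))), v1, v2] at q
      have := congrArg (fun z => cr z (h (β.cl cls)).a) q
      rcases hz with rfl | rfl <;> cases s <;>
        simp only [Sh.R, Bool.not_false, Bool.not_true, cr_add_l, cr_smul_l, cr_neg_l, g.one] at this p0 p1 p2 <;>
        nlinarith
    rcases β with i | ⟨c, i⟩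
    · rcases mvG (fun i a => G _ (hc i a)) R (show i < 6 * n from o.1) s ow with e | ⟨κ', a, e⟩ | ⟨s', e⟩ | ⟨δ, e⟩ | e
      · exact (n1 e).elim
      · exact Or.inr (nb κ' (ko κ' a e) e)
      · exact Or.inr (far trivial s' e)
      · exact Or.inl ⟨δ, dz _ e⟩
      · refine Or.inr fun θ _ q => dz _ (e θ) ?_
        obtain ⟨t, -, -, q⟩ := seg q
        rw [vec hc G R θ o] at q
        rw [show pos cls h Y θ (.sp (.e i) s) = pos cls h Y θ (Eg.src (.hub (.e i) s κ)) from rfl, q, cr_smul_r,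
          cr_smul_r, cr_self, mul_zero, mul_zero]
    · rcases mvH cls h c i s w g.one g.b with e | ⟨κ', a, e⟩ | ⟨a, s', e⟩ | ⟨δ, e⟩
      · exact (n1 e).elim
      · exact Or.inr (nb κ' (ko κ' a e) e)
      · exact Or.inr (far a s' e)
      · exact Or.inl ⟨δ, dz _ e⟩
  · have dz : cr (dir cls h (.hub β s κ)) (h (β.cl cls)).e ≠ 0 := by
      rw [cr_comm, neg_ne_zero]
      cases κ with
      | spn => simp at hz
      | md => simp at hz
      | lo => cases s <;> simp [dir, Sh.R, cr_neg_r, g.one, g.b]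
      | up => cases s <;> simp [dir, Sh.R, cr_neg_r, g.one, g.b]
      | pg z t => cases s <;> simpa [dir, Sh.R, cr_sub_r, cr_self] using g.wne z t o.2.1
    have fin : (w = .sp β s ∨ (∃ κ, κ ≠ .md ∧ w = tg β s κ) ∨ ∃ δ,
        pos cls h 0 δ w - pos cls h 0 δ (.sp β s) = (h (β.cl cls)).e ∨
        pos cls h 0 δ w - pos cls h 0 δ (.sp β s) = -(h (β.cl cls)).e) := by
      cases β
      exacts [mvE cls h _ s w, mvL cls h _ _ s w g.add]
    rcases fin with e | ⟨κ', a, e⟩ | ⟨δ, e | e⟩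
    · exact (n1 e).elim
    · exact Or.inr (nb κ' (ko κ' a e) e)
    · exact Or.inl ⟨δ, by rw [Eg.src, e]; exact dz⟩
    · exact Or.inl ⟨δ, by rw [Eg.src, e, cr_neg_r, neg_ne_zero]; exact dz⟩

theorem complete (hk : 3 ≤ k) (hC : C ≤ k) (hc : ∀ i < 6 * n, cls i < C) (fin : {ε : Eg | ε.ok n C k cls}.Finite)
    (hD : ∀ c, D c ≠ 0) (R : Rz n cls D Y) : Draw n C k cls := by
  classical
  obtain ⟨S, s1, s2⟩ := Infinite.exists_superset_card_eq ((Finset.range C).image fun c => sl (D c)) k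
    (Finset.card_image_le.trans (by simpa))
  have : ∀ c, ∃ h, c < C → Good S k (D c) h := fun c => by
    by_cases q : c < C
    · obtain ⟨h, g⟩ := shape s2 hk (hD c) (s1 (Finset.mem_image_of_mem _ (Finset.mem_range.2 q)))
      exact ⟨h, fun _ => g⟩
    · exact ⟨⟨0, 0, 0, 0⟩, fun r => (q r).elim⟩
  choose h G using this
  obtain ⟨θ0, h0⟩ := feas hc G R
  let en : Eg → Bool → Vx := fun ε b => if b then ε.tgt else ε.src
  obtain ⟨θ, hθ⟩ := gen (ι := Eg × Eg × Option Bool) (fin.prod (fin.prod Set.finite_univ))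
    (fun i θ => i.2.2.elim (len cls h Y θ i.1) fun b =>
      cr (dir cls h i.1) (pos cls h Y θ (en i.2.1 b) - pos cls h Y θ i.1.src))
    (fun i θ => i.2.2.elim (len cls h 0 θ i.1) fun b =>
      cr (dir cls h i.1) (pos cls h 0 θ (en i.2.1 b) - pos cls h 0 θ i.1.src))
    (by
      rintro ⟨ε, ε', _ | b⟩ θ δ t
      · exact len_lin _ _ _ _ _ _ _
      · simp only [Option.elim, pos_lin, cr_sub_r, cr_add_r, cr_smul_r]; ring) θ0
  have p : ∀ ε : Eg, ε.ok n C k cls → 0 < len cls h Y θ ε := fun ε o => (hθ (ε, ε, none) ⟨o, o, trivial⟩).1 (h0 ε o)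
  have dn : ∀ ε : Eg, ε.ok n C k cls → dir cls h ε ≠ 0 ∧ sl (dir cls h ε) ∈ S := fun ε o => by
    rcases ε with ⟨β, s, κ⟩ | i | ⟨c, i⟩
    · exact ⟨(G _ (o.1.cl hc)).nz s κ o.2.1, (G _ (o.1.cl hc)).sl s κ o.2.1⟩
    · exact ⟨(G _ (hc i o)).ne, (G _ (hc i o)).sl false .spn trivial⟩
    · exact ⟨(G _ o.1).ne, (G _ o.1).sl false .spn trivial⟩
  have ne : ∀ ε : Eg, ε.ok n C k cls → pos cls h Y θ ε.tgt - pos cls h Y θ ε.src ≠ 0 := fun ε o => by
    rw [vec hc G R θ o]; exact smul_ne_zero (p ε o).ne' (dn ε o).1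
  have key : ∀ ε : Eg, ε.ok n C k cls → ∀ w, Val n C k cls w → w ≠ ε.src → w ≠ ε.tgt →
      pos cls h Y θ w ∉ segment ℝ (pos cls h Y θ ε.src) (pos cls h Y θ ε.tgt) := fun ε o w ⟨y, ε', o', e⟩ n1 n2 => by
    obtain ⟨b, rfl⟩ : ∃ b, w = en ε' b := e.elim (fun q => ⟨false, q.1.symm⟩) fun q => ⟨true, q.2.symm⟩
    have ow : (en ε' b).ok n C k := by cases b; exacts [o'.vx.1, o'.vx.2]
    rcases cases hc G R o ow n1 n2 with q | q
    · intro r
      obtain ⟨t, -, -, r⟩ := seg r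
      refine (hθ (ε, ε', some b) ⟨o, o', trivial⟩).2 q ?_
      simp only [Option.elim, r, vec hc G R θ o, cr_smul_r, cr_self, mul_zero]
    · exact q θ p
  have key' : ∀ x y, Adj n C k cls x y → pos cls h Y θ x ≠ pos cls h Y θ y ∧ ∀ w, Val n C k cls w → w ≠ x → w ≠ y →
      pos cls h Y θ w ∉ segment ℝ (pos cls h Y θ x) (pos cls h Y θ y) := by
    rintro x y ⟨ε, o, ⟨rfl, rfl⟩ | ⟨rfl, rfl⟩⟩
    · exact ⟨fun q => ne ε o (by rw [q, sub_self]), key ε o⟩
    · exact ⟨fun q => ne ε o (by rw [q, sub_self]), fun w a b c => by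
        rw [segment_symm]; exact key ε o w a c b⟩
  refine ⟨pos cls h Y θ, S, s2.le, fun x y ⟨z, a⟩ b q => ?_, fun x y w a b q => ?_, ?_⟩
  · by_contra hn
    by_cases r : y = z
    · exact (key' x z a).1 (r ▸ q)
    · exact (key' x z a).2 y b (Ne.symm hn) r (q ▸ left_mem_segment _ _ _)
  · by_cases r1 : w = x
    · exact (key' x y a).1 (left_mem_openSegment_iff.1 (r1 ▸ q))
    by_cases r2 : w = y
    · exact (key' x y a).1 (right_mem_openSegment_iff.1 (r2 ▸ q))
    exact (key' x y a).2 w b r1 r2 (openSegment_subset_segment _ _ _ q)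
  · rintro x y ⟨ε, o, ⟨rfl, rfl⟩ | ⟨rfl, rfl⟩⟩
    · rw [vec hc G R θ o, sl_smul (p ε o).ne']; exact (dn ε o).2
    · rw [← neg_sub, vec hc G R θ o, ← neg_smul, sl_smul (neg_ne_zero.2 (p ε o).ne')]; exact (dn ε o).2

end Pool.Agent.H.MP_09bf15_lc
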