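import Pool.Agent.H.MP_09bf15_lc.E
import Pool.Agent.Lib.lead.CXGraphRed
import Pool.Agent.Lib.helper22.CXEtrD

/-! The reduction. -/

namespace Pool.Agent.H.MP_09bf15_lc

open Pool.Agent.Lib.ER Pool.Agent.Lib.CX

set_option synthInstance.maxSize 4000

def Bk.code : Bk → Bool × ℕ × ℕ
  | .e i => (false, 0, i)
  | .l c i => (true, c, i)

theorem Bk.code_inj : Function.Injective Bk.code := by
  rintro (_ | _) (_ | _) <;> simp [Bk.code]

def Vx.code : Vx → ℕ × (Bool × ℕ × ℕ) × Bool × ℕ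
  | .X j s => (0, (false, j, s), false, 0)
  | .sp β s => (1, β.code, s, 0)
  | .pg β z t => (2, β.code, z, t)
  | .lo i s => (3, (false, 0, i), s, 0)
  | .up i s => (4, (false, 0, i), s, 0)
  | .rg c i s => (5, (false, c, i), s, 0)

theorem Vx.code_inj : Function.Injective Vx.code := by
  rintro (_ | _ | _ | _ | _ | _) (_ | _ | _ | _ | _ | _) <;> simp [Vx.code, Bk.code_inj.eq_iff]
  tauto

instance : Enc Bk := ⟨fun β => Enc.tr β.code, fun _ _ h => Bk.code_inj (Enc.inj h)⟩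
instance : Enc Vx := ⟨fun β => Enc.tr β.code, fun _ _ h => Vx.code_inj (Enc.inj h)⟩

section
variable {α : Type} [Enc α] {i j : α → ℕ} {s : α → Bool} {β : α → Bk}

@[fun_prop] theorem pt_code (h : PT β) : PT fun a => (β a).code := h.cast fun _ => rfl
@[fun_prop] theorem pt_e (h : PT i) : PT fun a => Bk.e (i a) :=
  (by fun_prop : PT fun a => ((false, 0, i a) : Bool × ℕ × ℕ)).cast fun _ => rfl
@[fun_prop] theorem pt_l (h : PT i) (g : PT j) : PT fun a => Bk.l (i a) (j a) :=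
  (by fun_prop : PT fun a => ((true, i a, j a) : Bool × ℕ × ℕ)).cast fun _ => rfl
@[fun_prop] theorem pt_X (h : PT i) (g : PT j) : PT fun a => Vx.X (i a) (j a) :=
  (by fun_prop : PT fun a => ((0, (false, i a, j a), false, 0) : ℕ × (Bool × ℕ × ℕ) × Bool × ℕ)).cast fun _ => rfl
@[fun_prop] theorem pt_sp (h : PT β) (g : PT s) : PT fun a => Vx.sp (β a) (s a) :=
  (by fun_prop : PT fun a => ((1, (β a).code, s a, 0) : ℕ × (Bool × ℕ × ℕ) × Bool × ℕ)).cast fun _ => rfl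
@[fun_prop] theorem pt_pg (h : PT β) (g : PT s) (k : PT i) : PT fun a => Vx.pg (β a) (s a) (i a) :=
  (by fun_prop : PT fun a => ((2, (β a).code, s a, i a) : ℕ × (Bool × ℕ × ℕ) × Bool × ℕ)).cast fun _ => rfl
@[fun_prop] theorem pt_lo (h : PT i) (g : PT s) : PT fun a => Vx.lo (i a) (s a) :=
  (by fun_prop : PT fun a => ((3, (false, 0, i a), s a, 0) : ℕ × (Bool × ℕ × ℕ) × Bool × ℕ)).cast fun _ => rfl
@[fun_prop] theorem pt_up (h : PT i) (g : PT s) : PT fun a => Vx.up (i a) (s a) :=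
  (by fun_prop : PT fun a => ((4, (false, 0, i a), s a, 0) : ℕ × (Bool × ℕ × ℕ) × Bool × ℕ)).cast fun _ => rfl
@[fun_prop] theorem pt_rg (h : PT i) (k : PT j) (g : PT s) : PT fun a => Vx.rg (i a) (j a) (s a) :=
  (by fun_prop : PT fun a => ((5, (false, i a, j a), s a, 0) : ℕ × (Bool × ℕ × ℕ) × Bool × ℕ)).cast fun _ => rfl

end

def com (k : ℕ) (β : Bk) (s : Bool) : List (Vx × Vx) :=
  (.sp β s, .sp β (!s)) :: ([false, true] ×ˢ List.range (k - 2)).map fun t => (.sp β s, .pg β t.1 t.2)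

def es (n C k : ℕ) (cls : ℕ → ℕ) : List (Vx × Vx) :=
  ((List.range (6 * n) ×ˢ [false, true]).flatMap fun a => com k (.e a.1) a.2 ++
    [(.sp (.e a.1) a.2, .lo a.1 a.2), (.sp (.e a.1) a.2, .up a.1 a.2),
      (.sp (.e a.1) a.2, .X (a.1 / 6) (ep (a.1 % 6) a.2)), (.lo a.1 false, .lo a.1 true)]) ++
  ((List.range C ×ˢ List.range (6 * n) ×ˢ [false, true]).flatMap fun a => com k (.l a.1 a.2.1) a.2.2 ++
    [(.sp (.l a.1 a.2.1) a.2.2, .rg a.1 a.2.1 a.2.2), (.sp (.l a.1 a.2.1) a.2.2, .rg a.1 (a.2.1 + 1) a.2.2)] ++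
    if cls a.2.1 = a.1 then [(.sp (.l a.1 a.2.1) a.2.2, .up a.2.1 a.2.2)] else []) ++
  (List.range C ×ˢ List.range (6 * n + 1)).map fun a => (.rg a.1 a.2 false, .rg a.1 a.2 true)

theorem mem_tf (s : Bool) : s ∈ [false, true] := by cases s <;> simp

theorem mem_es {n C k cls x y} : (x, y) ∈ es n C k cls ↔ ∃ ε : Eg, ε.ok n C k cls ∧ ε.src = x ∧ ε.tgt = y := by
  constructor
  · intro h
    simp only [es, com, List.mem_append, List.mem_flatMap, List.mem_map, List.mem_cons, Prod.exists, List.mem_product,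
      List.mem_range, Prod.mk.injEq, List.not_mem_nil, or_false, List.mem_ite_nil_right] at h
    rcases h with (⟨i, s, ⟨a, -⟩, h⟩ | ⟨c, i, s, ⟨a, b, -⟩, h⟩) | ⟨c, i, ⟨a, b⟩, rfl, rfl⟩
    · rcases h with (⟨rfl, rfl⟩ | ⟨z, t, ⟨-, q⟩, rfl, rfl⟩) | ⟨rfl, rfl⟩ | ⟨rfl, rfl⟩ | ⟨rfl, rfl⟩ | ⟨rfl, rfl⟩
      · exact ⟨.hub (.e i) s .spn, ⟨a, trivial, by simp⟩, rfl, rfl⟩
      · exact ⟨.hub (.e i) s (.pg z t), ⟨a, q, by simp⟩, rfl, rfl⟩
      · exact ⟨.hub (.e i) s .lo, ⟨a, trivial, by simp⟩, rfl, rfl⟩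
      · exact ⟨.hub (.e i) s .up, ⟨a, trivial, by simp⟩, rfl, rfl⟩
      · exact ⟨.hub (.e i) s .md, ⟨a, trivial, fun _ => trivial⟩, rfl, rfl⟩
      · exact ⟨.bl i, a, rfl, rfl⟩
    · rcases h with ((⟨rfl, rfl⟩ | ⟨z, t, ⟨-, q⟩, rfl, rfl⟩) | ⟨rfl, rfl⟩ | ⟨rfl, rfl⟩) | ⟨q, rfl, rfl⟩
      · exact ⟨.hub (.l c i) s .spn, ⟨⟨a, b⟩, trivial, by simp⟩, rfl, rfl⟩
      · exact ⟨.hub (.l c i) s (.pg z t), ⟨⟨a, b⟩, q, by simp⟩, rfl, rfl⟩
      · exact ⟨.hub (.l c i) s .lo, ⟨⟨a, b⟩, trivial, by simp⟩, rfl, rfl⟩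
      · exact ⟨.hub (.l c i) s .up, ⟨⟨a, b⟩, trivial, by simp⟩, rfl, rfl⟩
      · exact ⟨.hub (.l c i) s .md, ⟨⟨a, b⟩, trivial, fun _ => q⟩, rfl, rfl⟩
    · exact ⟨.br c i, ⟨a, by omega⟩, rfl, rfl⟩
  · rintro ⟨ε, o, rfl, rfl⟩
    simp only [es, List.mem_append, List.mem_flatMap, List.mem_map, Prod.exists, List.mem_product, List.mem_range]
    rcases ε with ⟨i | ⟨c, i⟩, s, κ⟩ | i | ⟨c, i⟩
    · refine Or.inl (Or.inl ⟨i, s, ⟨o.1, mem_tf s⟩, ?_⟩)
      cases κ <;> simp [com, Eg.src, Eg.tgt, tg]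
      simpa [← and_or_left, K.ok] using o.2.1
    · refine Or.inl (Or.inr ⟨c, i, s, ⟨o.1.1, o.1.2, mem_tf s⟩, ?_⟩)
      cases κ <;> simp [com, Eg.src, Eg.tgt, tg]
      exacts [o.2.2 rfl, by simpa [← and_or_left, K.ok] using o.2.1]
    · exact Or.inl (Or.inl ⟨i, false, ⟨o, mem_tf _⟩, by simp [Eg.src, Eg.tgt]⟩)
    · exact Or.inr ⟨c, i, ⟨o.1, Nat.lt_succ_of_le o.2⟩, rfl⟩

theorem fin_ok (n C k cls) : {ε : Eg | ε.ok n C k cls}.Finite := by
  refine Set.Finite.of_finite_image (f := fun ε => (ε.src, ε.tgt)) ((List.finite_toSet (es n C k cls)).subset ?_) ?_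
  · rintro _ ⟨ε, o, rfl⟩
    exact mem_es.2 ⟨ε, o, rfl, rfl⟩
  · rintro (⟨β, s, κ⟩ | _ | _) - (⟨β', s', κ'⟩ | _ | _) - h <;> simp_all [Eg.src, Eg.tgt]
    obtain ⟨⟨rfl, rfl⟩, h⟩ := h
    exact tg_inj h

def SN (a : Gr × ℕ) : Prop := ∃ p : Fin a.1.n → P, Function.Injective p ∧
  (∀ u v w, a.1.G.Adj u v → p w ∉ openSegment ℝ (p u) (p v)) ∧
  ∃ S : Finset (Option ℝ), S.card ≤ a.2 ∧ ∀ u v, a.1.G.Adj u v → sl (p v - p u) ∈ S

def gr (l : List (Vx × Vx)) : Gr := mkGr (l.flatMap fun e => [e.1, e.2]) l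

theorem gr_iff {n C k cls} : SN (gr (es n C k cls), k) ↔ Draw n C k cls := by
  let vs := (es n C k cls).flatMap fun e => [e.1, e.2]
  let e := mkGrIso vs (es n C k cls)
  have a0 : ∀ x y, Adj n C k cls x y ↔ (x, y) ∈ es n C k cls ∨ (y, x) ∈ es n C k cls := fun x y => by
    simp only [Adj, mem_es, and_or_left, exists_or]
  have mv : ∀ x, x ∈ vs ↔ Val n C k cls x := fun x => by
    simp only [vs, Val, a0, List.mem_flatMap, Prod.exists, List.mem_cons, List.not_mem_nil, or_false]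
    constructor
    · rintro ⟨a, b, h, rfl | rfl⟩
      exacts [⟨b, Or.inl h⟩, ⟨a, Or.inr h⟩]
    · rintro ⟨y, h | h⟩
      exacts [⟨_, _, h, Or.inl rfl⟩, ⟨_, _, h, Or.inr rfl⟩]
  have ad : ∀ u v, (gr (es n C k cls)).G.Adj u v ↔ Adj n C k cls (e u).1 (e v).1 := fun u v => by
    refine e.map_rel_iff.symm.trans ?_
    simp only [SimpleGraph.comap_adj, Function.Embedding.subtype_apply, SimpleGraph.fromRel_adj, ← a0,
      and_iff_right_iff_imp]
    exact Adj.ne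
  constructor
  · rintro ⟨p, hp, h, S, s1, s2⟩
    refine ⟨fun v => if hv : v ∈ vs then p (e.symm ⟨v, hv⟩) else 0, S, s1, fun u v hu hv q => ?_,
      fun u v w a hw => ?_, fun u v a => ?_⟩
    · simp only [(mv _).2 hu, (mv _).2 hv, dif_pos] at q
      exact congrArg Subtype.val (e.symm.injective (hp q))
    · simp only [(mv _).2 ⟨_, a⟩, (mv _).2 ⟨_, a.symm⟩, (mv _).2 hw, dif_pos]
      exact h _ _ _ ((ad _ _).2 (by simpa using a))
    · simp only [(mv _).2 ⟨_, a⟩, (mv _).2 ⟨_, a.symm⟩, dif_pos]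
      exact s2 _ _ ((ad _ _).2 (by simpa using a))
  · rintro ⟨pos, S, s1, h1, h2, h3⟩
    exact ⟨fun i => pos (e i).1, fun i j q => e.injective (Subtype.ext (h1 _ _ ((mv _).1 (e i).2) ((mv _).1 (e j).2) q)),
      fun u v w a => h2 _ _ _ ((ad _ _).1 a) ((mv _).1 (e w).2), S, s1, fun u v a => h3 _ _ ((ad _ _).1 a)⟩

def row (M r : ℕ) (e : Q4) : List ℕ :=
  [2, 3 + e.1, 0, 1, 3 + e.2.1, 3 + M + 2 * r + 1, 2, 3 + M + 2 * r, 0, 1, 3, 3 + M + 2 * r + 1,
    1, 3 + M + 2 * r, 3 + e.2.2.2, 0, 3 + e.2.2.1, 1]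

def cl (M : ℕ) (E : List Q4) (i : ℕ) : ℕ := (row M (i / 18) (E.getD (i / 18) (0, 0, 0, 0))).getD (i % 18) 0

def red (a : List Unit × List Q4) : Gr × ℕ :=
  (gr (es (3 * a.2.length) (3 + a.1.length + 2 * a.2.length) (3 + a.1.length + 2 * a.2.length) (cl a.1.length a.2)),
    3 + a.1.length + 2 * a.2.length)

theorem pt_red : PT red := by
  have h0 : PT fun a : (List Unit × List Q4) × ℕ => cl a.1.1.length a.1.2 a.2 := by unfold cl row; fun_prop
  have h1 : PT fun a : List Unit × Bk × Bool => com a.1.length a.2.1 a.2.2 := by unfold com; fun_prop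
  have h1' : ∀ {α : Type} [Enc α] {k : α → ℕ} {β : α → Bk} {s : α → Bool}, PT k → PB k → PT β → PT s →
      PT fun a => com (k a) (β a) (s a) := fun {α} _ {k β s} a b c d =>
    (h1.comp (g := fun a => (List.replicate (k a) (), β a, s a)) (by fun_prop)).congr fun a => by simp
  have h2 : PT fun a : List Unit × List Q4 => es (3 * a.2.length) (3 + a.1.length + 2 * a.2.length)
      (3 + a.1.length + 2 * a.2.length) (cl a.1.length a.2) := by
    unfold es
    refine PT.append (PT.append (PT.flatMap (PT.append (h1' ?_ ?_ ?_ ?_) ?_) ?_)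
      (PT.flatMap (PT.append (PT.append (h1' ?_ ?_ ?_ ?_) ?_) (PT.ite (PT.decide_eq ?_ ?_) ?_ ?_)) ?_)) ?_
    any_goals (unfold ep; fun_prop)
    any_goals fun_prop
    exact (h0.comp (g := fun a : (List Unit × List Q4) × ℕ × ℕ × Bool => (a.1, a.2.2.1)) (by fun_prop) :)
  have h3 : PT gr := by unfold gr; fun_prop
  exact (h3.comp h2).pair (by fun_prop)

theorem algM {X : ℕ → P} {N x H V y w : P} (r01 : Ray N (X 1 - X 0)) (r02 : Ray x (X 2 - X 0)) (r03 : Ray H (X 3 - X 0))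
    (r12 : Ray V (X 2 - X 1)) (r13 : Ray y (X 3 - X 1)) (r23 : Ray w (X 3 - X 2))
    (nc : ∀ s < 4, ∀ t < 4, ∀ r < 4, s ≠ t → s ≠ r → t ≠ r → cr (X t - X s) (X r - X s) ≠ 0) :
    cr H y / cr y V ≠ 0 ∧ cr H x / cr x V * (cr H y / cr y V) = cr H N / cr N V * (cr H w / cr w V) := by
  have n1 := nc 0 (by omega) 1 (by omega) 2 (by omega) (by omega) (by omega) (by omega)
  have n2 := nc 1 (by omega) 2 (by omega) 3 (by omega) (by omega) (by omega) (by omega)
  have n3 := nc 0 (by omega) 1 (by omega) 3 (by omega) (by omega) (by omega) (by omega)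
  obtain ⟨a, a0, ha⟩ := r01.symm
  obtain ⟨b, b0, hb⟩ := r02.symm
  obtain ⟨c, c0, hc⟩ := r03.symm
  obtain ⟨d, d0, hd⟩ := r12.symm
  obtain ⟨e, e0, he⟩ := r13.symm
  obtain ⟨f, f0, hf⟩ := r23.symm
  obtain ⟨p, hp⟩ : ∃ p, X 1 = X 0 + p := ⟨X 1 - X 0, by abel⟩
  obtain ⟨q, hq⟩ : ∃ p, X 2 = X 0 + p := ⟨X 2 - X 0, by abel⟩
  obtain ⟨r, hr⟩ : ∃ p, X 3 = X 0 + p := ⟨X 3 - X 0, by abel⟩
  simp only [hp, hq, hr, add_sub_cancel_left, add_sub_add_left_eq_sub] at *
  subst ha hb hc hd he hf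
  have e1 : cr q (q - p) = cr p (q - p) := by simp [cr]; ring
  have e2 : cr (r - q) (q - p) = cr (r - p) (q - p) := by simp [cr]; ring
  have e3 : cr r (r - p) = -cr r p := by simp [cr]; ring
  have e4 : cr r (r - q) = -cr r q := by simp [cr]; ring
  have m1 : cr p (q - p) ≠ 0 := by rwa [cr_sub_r, cr_self, sub_zero]
  have m2 : cr (r - p) (q - p) ≠ 0 := by rwa [cr_comm, neg_ne_zero]
  have m3 : cr r p ≠ 0 := by rwa [cr_comm, neg_ne_zero]
  simp only [cr_smul_l, cr_smul_r, e1, e2, e3, e4]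
  have := a0.ne'; have := b0.ne'; have := c0.ne'; have := d0.ne'; have := e0.ne'; have := f0.ne'
  exact ⟨by simp [*], by field_simp⟩

theorem algA {X : ℕ → P} {x H V y z : P} (r01 : Ray V (X 1 - X 0)) (r02 : Ray x (X 2 - X 0)) (r03 : Ray z (X 3 - X 0))
    (r12 : Ray H (X 2 - X 1)) (r13 : Ray y (X 3 - X 1)) (r23 : Ray V (X 3 - X 2))
    (nc : ∀ s < 4, ∀ t < 4, ∀ r < 4, s ≠ t → s ≠ r → t ≠ r → cr (X t - X s) (X r - X s) ≠ 0) :
    cr H x / cr x V + cr H y / cr y V = cr H z / cr z V := by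
  have n1 := nc 0 (by omega) 1 (by omega) 2 (by omega) (by omega) (by omega) (by omega)
  obtain ⟨a, a0, ha⟩ := r01
  obtain ⟨b, b0, hb⟩ := r02.symm
  obtain ⟨c, c0, hc⟩ := r03.symm
  obtain ⟨d, d0, hd⟩ := r12.symm
  obtain ⟨e, e0, he⟩ := r13.symm
  obtain ⟨f, f0, hf⟩ := r23
  obtain ⟨q, hq⟩ : ∃ p, X 2 = X 0 + p := ⟨X 2 - X 0, by abel⟩
  rw [sub_eq_iff_eq_add'] at ha hf
  rw [hq, add_assoc] at hf
  simp only [ha, hq, hf, add_sub_cancel_left, add_sub_add_left_eq_sub] at *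
  subst hb hc hd he
  have m1 : cr q V ≠ 0 := fun r => n1 (by rw [cr_smul_l, cr_comm, r]; simp)
  simp only [cr_smul_l, cr_smul_r, cr_add_l, cr_add_r, cr_sub_l, cr_sub_r, cr_self, cr_comm V q]
  have := b0.ne'; have := c0.ne'; have := d0.ne'; have := e0.ne'
  simp only [mul_zero, add_zero, sub_zero]
  field_simp
  ring

theorem nc4 {X : ℕ → P} (h1 : cr (X 1 - X 0) (X 2 - X 0) ≠ 0) (h2 : cr (X 1 - X 0) (X 3 - X 0) ≠ 0)
    (h3 : cr (X 2 - X 0) (X 3 - X 0) ≠ 0) (h4 : cr (X 2 - X 1) (X 3 - X 1) ≠ 0) :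
    ∀ s < 4, ∀ t < 4, ∀ r < 4, s ≠ t → s ≠ r → t ≠ r → cr (X t - X s) (X r - X s) ≠ 0 := by
  intro s hs t ht r hr a b c q
  simp only [cr, Prod.fst_sub, Prod.snd_sub] at *
  interval_cases s <;> interval_cases t <;> interval_cases r <;>
    first | exact a rfl | exact b rfl | exact c rfl | exact h1 (by linarith) | exact h2 (by linarith) |
      exact h3 (by linarith) | exact h4 (by linarith)

noncomputable def Ym (x y : ℝ) (s : ℕ) : P := [(0, 0), (1, -1), (1, x), (1 + 1 / y, 0)].getD s 0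
def Ya (x y : ℝ) (s : ℕ) : P := [(0, 0), (0, x), (1, x), (1, x + y)].getD s 0

theorem hard : Red ETR SN := by
  refine etr_of_dq red pt_red fun M E h0 hE => ?_
  have gm : ∀ r < E.length, E.getD r (0, 0, 0, 0) ∈ E := fun r hr => by simp [hr]
  have lt : ∀ i < 6 * (3 * E.length), cl M.length E i < 3 + M.length + 2 * E.length := fun i hi => by
    obtain ⟨a, b, c, d⟩ := hE _ (gm (i / 18) (by omega))
    have : i % 18 < 18 := by omega
    have : i / 18 < E.length := by omega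
    unfold cl row
    generalize i % 18 = t at *
    interval_cases t <;> simp only [List.getD_cons_succ, List.getD_cons_zero] <;> omega
  have ix : ∀ r t, t < 18 → cl M.length E (18 * r + t) = (row M.length r (E.getD r (0, 0, 0, 0))).getD t 0 ∧
      (18 * r + t) / 6 = 3 * r + t / 6 ∧ (18 * r + t) % 6 = t % 6 := fun r t ht => by
    refine ⟨?_, by omega, by omega⟩
    rw [cl, show (18 * r + t) / 18 = r by omega, show (18 * r + t) % 18 = t by omega]
  simp only [red]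
  rw [gr_iff]
  constructor
  · rintro ⟨x, x0, mono, hx⟩
    have one : ∀ i < M.length, 0 < x i := fun i hi => by
      rcases Nat.eq_zero_or_pos i with rfl | h
      · rw [x0]; exact one_pos
      · linarith [mono 0 i h hi]
    let m : ℕ → ℝ := fun r => x (E.getD r (0, 0, 0, 0)).1 * x (E.getD r (0, 0, 0, 0)).2.1
    let D : ℕ → P := fun c => if c = 0 then (1, 0) else if c = 1 then (0, 1) else if c = 2 then (1, -1) else
      if c < 3 + M.length then (1, x (c - 3)) else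
        (1, if (c - (3 + M.length)) % 2 = 0 then m ((c - (3 + M.length)) / 2) else -m ((c - (3 + M.length)) / 2))
    have d1 : ∀ i < M.length, D (3 + i) = (1, x i) := fun i hi => by
      simp [D, hi, show 3 + i ≠ 1 by omega, show 3 + i ≠ 2 by omega]
    have d2 : ∀ r, D (3 + M.length + 2 * r) = (1, m r) := fun r => by
      simp [D, show 3 + M.length + 2 * r ≠ 1 by omega, show 3 + M.length + 2 * r ≠ 2 by omega]
    have d3 : ∀ r, D (3 + M.length + 2 * r + 1) = (1, -m r) := fun r => by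
      simp [D, show 3 + M.length + 2 * r ≠ 1 by omega, show ¬3 + M.length + 2 * r + 1 < 3 + M.length by omega,
        show 3 + M.length + 2 * r + 1 - (3 + M.length) = 2 * r + 1 by omega, show (2 * r + 1) / 2 = r by omega]
    have d4 : D 3 = (1, 1) := by simpa [x0] using d1 0 h0
    have d5 : D 0 = (1, 0) := rfl
    have d6 : D 1 = (0, 1) := rfl
    have d7 : D 2 = (1, -1) := rfl
    let Y : ℕ → ℕ → P := fun j => if j % 3 = 0 then Ym (x (E.getD (j / 3) (0, 0, 0, 0)).1) (x (E.getD (j / 3) (0, 0, 0, 0)).2.1)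
      else if j % 3 = 1 then Ym (m (j / 3)) 1 else Ya (m (j / 3)) (x (E.getD (j / 3) (0, 0, 0, 0)).2.2.1)
    have y0 : ∀ r, Y (3 * r + 0) = Ym (x (E.getD r (0, 0, 0, 0)).1) (x (E.getD r (0, 0, 0, 0)).2.1) := fun r => by simp [Y]
    have y1 : ∀ r, Y (3 * r + 1) = Ym (m r) 1 := fun r => by simp [Y, show (3 * r + 1) / 3 = r by omega]
    have y2 : ∀ r, Y (3 * r + 2) = Ya (m r) (x (E.getD r (0, 0, 0, 0)).2.2.1) := fun r => by
      simp [Y, show (3 * r + 2) / 3 = r by omega, show (3 * r + 2) % 3 = 2 by omega]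
    refine complete (D := D) (Y := Y) (by omega) le_rfl lt (fin_ok _ _ _ _) (fun c => ?_) ⟨fun i hi => ?_, fun j hj => ?_⟩
    · simp only [D]; split_ifs <;> simp
    · obtain ⟨r, t, ht, rfl⟩ : ∃ r t, t < 18 ∧ i = 18 * r + t := ⟨i / 18, i % 18, by omega, by omega⟩
      obtain ⟨i1, i2, i3⟩ := ix r t ht
      have he := gm r (by omega)
      obtain ⟨a, b, c, d⟩ := hE _ he
      have ok := hx _ he
      have pa := one _ a
      have pb := one _ b
      have pc := one _ c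
      have pm : 0 < m r := mul_pos pa pb
      have em : m r = x (E.getD r (0, 0, 0, 0)).1 * x (E.getD r (0, 0, 0, 0)).2.1 := rfl
      unfold Q4.ok at ok
      rw [i1, i2, i3]
      interval_cases t <;>
        simp only [row, List.getD_cons_succ, List.getD_cons_zero, Nat.reduceDiv, Nat.reduceMod, y0, y1, y2, d1 _ a, d1 _ b,
          d1 _ c, d1 _ d, d2, d3, d4, d5, d6, d7, ep, if_true, Bool.false_eq_true, if_false, Ym, Ya, Prod.mk_sub_mk]
      · exact ⟨1, one_pos, by simp⟩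
      · exact ⟨1, one_pos, by simp⟩
      · exact ⟨1 + 1 / x (E.getD r (0, 0, 0, 0)).2.1, by have := one_div_pos.2 pb; linarith, by simp⟩
      · exact ⟨x (E.getD r (0, 0, 0, 0)).1 + 1, by linarith, by simp⟩
      · exact ⟨_, one_div_pos.2 pb, by simp [-List.getD_eq_getElem?_getD, pb.ne']⟩
      · exact ⟨_, one_div_pos.2 pb, by simp [-List.getD_eq_getElem?_getD, em]; field_simp⟩
      · exact ⟨1, one_pos, by simp⟩
      · exact ⟨1, one_pos, by simp⟩
      · exact ⟨2, two_pos, by norm_num⟩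
      · exact ⟨m r + 1, by linarith, by simp⟩
      · exact ⟨1, one_pos, by simp⟩
      · exact ⟨1, one_pos, by simp⟩
      · exact ⟨_, pm, by simp⟩
      · exact ⟨1, one_pos, by simp⟩
      · exact ⟨1, one_pos, by rw [em, ok]; simp⟩
      · exact ⟨1, one_pos, by simp⟩
      · exact ⟨1, one_pos, by simp⟩
      · exact ⟨_, pc, by simp⟩
    · have nm : ∀ a b : ℝ, 0 < a → 0 < b → ∀ s < 4, ∀ t < 4, ∀ r < 4, s ≠ t → s ≠ r → t ≠ r →
          cr (Ym a b t - Ym a b s) (Ym a b r - Ym a b s) ≠ 0 := fun a b p q => by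
        have := inv_pos.2 q
        refine nc4 ?_ ?_ ?_ ?_ <;> simp [Ym, cr] <;> first | positivity | (constructor <;> positivity)
      have na : ∀ a b : ℝ, 0 < a → 0 < b → ∀ s < 4, ∀ t < 4, ∀ r < 4, s ≠ t → s ≠ r → t ≠ r →
          cr (Ya a b t - Ya a b s) (Ya a b r - Ya a b s) ≠ 0 := fun a b p q => by
        refine nc4 ?_ ?_ ?_ ?_ <;> simp [Ya, cr] <;> positivity
      obtain ⟨a, b, c, d⟩ := hE _ (gm (j / 3) (by omega))
      have pm : 0 < m (j / 3) := mul_pos (one _ a) (one _ b)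
      simp only [Y]
      split_ifs
      exacts [nm _ _ (one _ a) (one _ b), nm _ _ pm one_pos, na _ _ pm (one _ c)]
  · intro h
    obtain ⟨D, Y, r1, r2⟩ := sound (by omega) lt h
    let s : ℕ → ℝ := fun c => cr (D 0) (D c) / cr (D c) (D 1)
    refine ⟨fun i => if i = 0 then 1 else s (3 + i) / s 3, by simp, fun e he => ?_⟩
    obtain ⟨r, hr, rfl⟩ := List.getElem_of_mem he
    have g : E.getD r (0, 0, 0, 0) = E[r] := by simp [hr]
    have q : ∀ t < 18, Ray (D ((row M.length r E[r]).getD t 0))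
        (Y (3 * r + t / 6) (ep (t % 6) true) - Y (3 * r + t / 6) (ep (t % 6) false)) := fun t ht => by
      have := r1 (18 * r + t) (by omega)
      rwa [(ix r t ht).1, (ix r t ht).2.1, (ix r t ht).2.2, g] at this
    obtain ⟨-, a1⟩ := algM (X := Y (3 * r + 0)) (q 0 (by omega)) (q 1 (by omega)) (q 2 (by omega)) (q 3 (by omega))
      (q 4 (by omega)) (q 5 (by omega)) (r2 _ (by omega))
    obtain ⟨a2, a3⟩ := algM (X := Y (3 * r + 1)) (q 6 (by omega)) (q 7 (by omega)) (q 8 (by omega)) (q 9 (by omega))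
      (q 10 (by omega)) (q 11 (by omega)) (r2 _ (by omega))
    have a4 := algA (X := Y (3 * r + 2)) (q 12 (by omega)) (q 13 (by omega)) (q 14 (by omega)) (q 15 (by omega))
      (q 16 (by omega)) (q 17 (by omega)) (r2 _ (by omega))
    simp only [row, List.getD_cons_succ, List.getD_cons_zero] at a1 a2 a3 a4
    change s _ * s _ = s _ * s _ at a1 a3
    change s _ ≠ 0 at a2
    change s _ + s _ = s _ at a4
    have z : ∀ i, (if i = 0 then 1 else s (3 + i) / s 3) = s (3 + i) / s 3 := fun i => by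
      split_ifs with w
      · rw [w, add_zero, div_self a2]
      · rfl
    simp only [Q4.ok, z]
    field_simp
    linear_combination a1 - a3 + s 3 * a4

end Pool.Agent.H.MP_09bf15_lc
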