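import Pool.Agent.H.MP_09bf15_lc.F

/-! Membership. -/

namespace Pool.Agent.H.MP_09bf15_lc

open Pool.Agent.Lib.ER Pool.Agent.Lib.CX

set_option synthInstance.maxSize 4000

instance : Enc Tm := ⟨fun f => Enc.tr f.toks, fun f g h => (Tm.toks_append f g [] [] (by rw [Enc.inj h])).1⟩

def conj (l : List Fm) : Fm := l.foldr .and (.eq (.num 0) (.num 0))
def disj (l : List Fm) : Fm := l.foldr .or (.lt (.num 0) (.num 0))

theorem conj_holds (l : List Fm) (x) : (conj l).Holds x ↔ ∀ f ∈ l, f.Holds x := by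
  induction l with
  | nil => simp [conj, Fm.Holds]
  | cons f l ih => simp only [conj, List.foldr_cons, Fm.Holds, List.forall_mem_cons] at *; rw [ih]

theorem disj_holds (l : List Fm) (x) : (disj l).Holds x ↔ ∃ f ∈ l, f.Holds x := by
  induction l with
  | nil => simp [disj, Fm.Holds]
  | cons f l ih => simp only [disj, List.foldr_cons, Fm.Holds, List.exists_mem_cons_iff] at *; rw [ih]

section
variable {α : Type} [Enc α] {s t : α → Tm} {f g : α → Fm}

@[fun_prop] theorem pt_tt (h : PT s) : PT fun a => (s a).toks := h.cast fun _ => rfl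
theorem pt_ofT (h : PT fun a => (s a).toks) : PT s := h.cast fun _ => rfl
theorem pt_ofF (h : PT fun a => (f a).toks) : PT f := h.cast fun _ => rfl
@[fun_prop] theorem pt_var {i : α → ℕ} (h : PT i) : PT fun a => Tm.var (i a) :=
  pt_ofT (by simp only [Tm.toks]; fun_prop)
@[fun_prop] theorem pt_add (h : PT s) (h' : PT t) : PT fun a => Tm.add (s a) (t a) :=
  pt_ofT ((PT.const _).cons ((pt_tt h).append (pt_tt h')))
@[fun_prop] theorem pt_mul (h : PT s) (h' : PT t) : PT fun a => Tm.mul (s a) (t a) :=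
  pt_ofT ((PT.const _).cons ((pt_tt h).append (pt_tt h')))
@[fun_prop] theorem pt_eq (h : PT s) (h' : PT t) : PT fun a => Fm.eq (s a) (t a) :=
  pt_ofF ((PT.const _).cons ((pt_tt h).append (pt_tt h')))
@[fun_prop] theorem pt_lt (h : PT s) (h' : PT t) : PT fun a => Fm.lt (s a) (t a) :=
  pt_ofF ((PT.const _).cons ((pt_tt h).append (pt_tt h')))
@[fun_prop] theorem pt_not (h : PT f) : PT fun a => Fm.not (f a) := pt_ofF ((PT.const _).cons (pt_toks h))
@[fun_prop] theorem pt_and (h : PT f) (h' : PT g) : PT fun a => Fm.and (f a) (g a) :=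
  pt_ofF ((PT.const _).cons ((pt_toks h).append (pt_toks h')))
@[fun_prop] theorem pt_conj {l : α → List Fm} (h : PT l) : PT fun a => conj (l a) :=
  pt_ofF (((PT.flatMap (F := fun _ (f : Fm) => (8, 0) :: f.toks) ((PT.const _).cons (pt_toks (by fun_prop))) h).append
    (PT.const [(4, 0), (1, 0), (1, 0)])).congr fun a => by
      generalize l a = l
      induction l with
      | nil => rfl
      | cons f l ih =>
        simp only [conj, List.foldr_cons, Fm.toks, List.flatMap_cons, List.cons_append, List.append_assoc] at *; rw [ih])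
@[fun_prop] theorem pt_disj {l : α → List Fm} (h : PT l) : PT fun a => disj (l a) :=
  pt_ofF (((PT.flatMap (F := fun _ (f : Fm) => (9, 0) :: f.toks) ((PT.const _).cons (pt_toks (by fun_prop))) h).append
    (PT.const [(5, 0), (1, 0), (1, 0)])).congr fun a => by
      generalize l a = l
      induction l with
      | nil => rfl
      | cons f l ih =>
        simp only [disj, List.foldr_cons, Fm.toks, List.flatMap_cons, List.cons_append, List.append_assoc] at *; rw [ih])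

end

def df (i j o : ℕ) : Tm := .add (.var (2 * i + o)) (.mul (.num (-1)) (.var (2 * j + o)))
def neF (e : ℕ × ℕ) : Fm := .not (.and (.eq (df e.1 e.2 0) (.num 0)) (.eq (df e.1 e.2 1) (.num 0)))
def sgF (e : ℕ × ℕ × ℕ) : Fm := .not (.and
  (.eq (.mul (df e.2.1 e.1 0) (df e.2.2 e.1 1)) (.mul (df e.2.1 e.1 1) (df e.2.2 e.1 0))) (.and
  (.lt (.num 0) (.add (.mul (df e.2.2 e.1 0) (df e.2.1 e.1 0)) (.mul (df e.2.2 e.1 1) (df e.2.1 e.1 1))))
  (.lt (.num 0) (.add (.mul (df e.2.2 e.2.1 0) (df e.1 e.2.1 0)) (.mul (df e.2.2 e.2.1 1) (df e.1 e.2.1 1))))))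
def plF (e : ℕ × ℕ × ℕ) : Fm := .and (.not (.and (.eq (.var (2 * e.2.2)) (.num 0)) (.eq (.var (2 * e.2.2 + 1)) (.num 0))))
  (.eq (.mul (.var (2 * e.2.2)) (df e.2.1 e.1 1)) (.mul (.var (2 * e.2.2 + 1)) (df e.2.1 e.1 0)))
def prs (a : Gr) : List (ℕ × ℕ) := (List.range a.n ×ˢ List.range a.n).filter fun e => decide (e.1 ≠ e.2)
def ads (a : Gr) : List (ℕ × ℕ) := (List.range a.n ×ˢ List.range a.n).filter fun e => a.adjB e.1 e.2
def fm (a : Gr × ℕ) : Fm := conj ((prs a.1).map neF ++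
  ((ads a.1 ×ˢ List.range a.1.n).map fun e => sgF (e.1.1, e.1.2, e.2)) ++
  (ads a.1).map fun e => disj ((List.range (min a.2 (a.1.n * a.1.n))).map fun t => plF (e.1, e.2, a.1.n + t)))

theorem pt_fm : PT fm := by
  have h0 : ∀ {α : Type} [Enc α] {i j : α → ℕ} (o : ℕ), PT i → PT j → PT fun a => df (i a) (j a) o :=
    fun {α} _ {i j} o a b => by unfold df; fun_prop
  have h1 : PT neF := by unfold neF df; fun_prop
  have h2 : PT sgF := by unfold sgF df; fun_prop
  have h3 : PT plF := by unfold plF df; fun_prop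
  have h4 : PT prs := by unfold prs; fun_prop
  have h5 : PT ads := by unfold ads; fun_prop
  have h6 : PT fun a : Gr × ℕ => ads a.1 := h5.comp (by fun_prop)
  refine pt_conj (PT.append (PT.append (PT.map (h1.comp (by fun_prop)) (h4.comp (by fun_prop)))
    (PT.map (h2.comp (by fun_prop)) (h6.product (by fun_prop)))) (PT.map (pt_disj (PT.map (h3.comp ?_) ?_)) h6))
  · fun_prop
  · fun_prop

theorem seg_iff {u v w : P} (h : u ≠ v) : w ∈ openSegment ℝ u v ↔
    (v.1 - u.1) * (w.2 - u.2) = (v.2 - u.2) * (w.1 - u.1) ∧ 0 < (w.1 - u.1) * (v.1 - u.1) + (w.2 - u.2) * (v.2 - u.2) ∧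
      0 < (w.1 - v.1) * (u.1 - v.1) + (w.2 - v.2) * (u.2 - v.2) := by
  have p : 0 < (v.1 - u.1) * (v.1 - u.1) + (v.2 - u.2) * (v.2 - u.2) := by
    rcases ne_zero_iff.1 (sub_ne_zero.2 h.symm) with q | q
    · exact add_pos_of_pos_of_nonneg (mul_self_pos.2 q) (mul_self_nonneg _)
    · exact add_pos_of_nonneg_of_pos (mul_self_nonneg _) (mul_self_pos.2 q)
  constructor
  · rintro ⟨a, b, ha, hb, e, rfl⟩
    obtain rfl : a = 1 - b := by linarith
    simp only [Prod.fst_add, Prod.snd_add, Prod.smul_fst, Prod.smul_snd, smul_eq_mul]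
    exact ⟨by ring, by nlinarith [mul_pos hb p], by nlinarith [mul_pos ha p]⟩
  · rintro ⟨a, b, c⟩
    obtain ⟨f, hf⟩ := exists_f (sub_ne_zero.2 h.symm)
    have d := decomp hf (w - u)
    rw [show cr (v - u) (w - u) = 0 by simp only [cr, Prod.fst_sub, Prod.snd_sub]; linarith, zero_smul, add_zero,
      sub_eq_iff_eq_add] at d
    generalize cr (w - u) f = t at d
    subst d
    simp only [Prod.fst_add, Prod.snd_add, Prod.smul_fst, Prod.smul_snd, smul_eq_mul, Prod.fst_sub, Prod.snd_sub] at b c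
    exact ⟨1 - t, t, by by_contra q; nlinarith, by by_contra q; nlinarith, by ring, by module⟩

def pt (x : ℕ → ℝ) (i : ℕ) : P := (x (2 * i), x (2 * i + 1))

theorem fm_holds (a : Gr × ℕ) (x : ℕ → ℝ) : (fm a).Holds x ↔ Function.Injective (fun i : Fin a.1.n => pt x i) ∧
    (∀ u v w : Fin a.1.n, a.1.G.Adj u v → pt x w ∉ openSegment ℝ (pt x u) (pt x v)) ∧
    ∀ u v : Fin a.1.n, a.1.G.Adj u v → ∃ t < min a.2 (a.1.n * a.1.n),
      pt x (a.1.n + t) ≠ 0 ∧ cr (pt x (a.1.n + t)) (pt x v - pt x u) = 0 := by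
  have e1 : ∀ i j, (neF (i, j)).Holds x ↔ pt x i ≠ pt x j := fun i j => by
    simp [neF, df, Fm.Holds, Tm.eval, add_neg_eq_zero, pt]
  have e2 : ∀ u v w, pt x u ≠ pt x v → ((sgF (u, v, w)).Holds x ↔ pt x w ∉ openSegment ℝ (pt x u) (pt x v)) :=
    fun u v w h => by
      rw [seg_iff h]
      simp [sgF, df, Fm.Holds, Tm.eval, sub_eq_add_neg, pt]
  have e3 : ∀ u v t, (plF (u, v, t)).Holds x ↔ pt x t ≠ 0 ∧ cr (pt x t) (pt x v - pt x u) = 0 := fun u v t => by
    simp [plF, df, Fm.Holds, Tm.eval, ← sub_eq_add_neg, pt, cr, sub_eq_zero]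
  have ma : ∀ e, e ∈ ads a.1 ↔ ∃ u v : Fin a.1.n, a.1.G.Adj u v ∧ e = (u.1, v.1) := fun ⟨u, v⟩ => by
    simp only [ads, List.mem_filter, List.mem_product, List.mem_range]
    exact ⟨fun ⟨⟨p, q⟩, r⟩ => ⟨⟨u, p⟩, ⟨v, q⟩, (a.1.adjB_iff _ _).1 r, rfl⟩, by
      rintro ⟨u, v, r, ⟨⟩⟩; exact ⟨⟨u.2, v.2⟩, (a.1.adjB_iff _ _).2 r⟩⟩
  simp only [fm, conj_holds, List.forall_mem_append, List.forall_mem_map, and_assoc]
  have i1 : (∀ e ∈ prs a.1, (neF e).Holds x) ↔ Function.Injective (fun i : Fin a.1.n => pt x i) := by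
    simp only [prs, List.mem_filter, Prod.forall, List.mem_product, List.mem_range, e1, decide_eq_true_eq]
    refine ⟨fun h i j q => ?_, fun h i j q r => q.2 (congrArg Fin.val (@h ⟨i, q.1.1⟩ ⟨j, q.1.2⟩ r))⟩
    by_contra hn
    exact h i j ⟨⟨i.2, j.2⟩, fun r => hn (Fin.ext r)⟩ q
  rw [i1]
  refine and_congr_right fun inj => and_congr ⟨fun h u v w q => ?_, ?_⟩ ⟨fun h u v q => ?_, ?_⟩
  · exact (e2 _ _ _ (inj.ne q.ne)).1
      (h ((u, v), w) (List.mem_product.2 ⟨(ma _).2 ⟨u, v, q, rfl⟩, List.mem_range.2 w.2⟩))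
  · rintro h ⟨e, w⟩ q
    obtain ⟨q1, q2⟩ := List.mem_product.1 q
    obtain ⟨u, v, r, rfl⟩ := (ma _).1 q1
    exact (e2 _ _ _ (inj.ne r.ne)).2 (h u v ⟨w, List.mem_range.1 q2⟩ r)
  · simpa only [disj_holds, List.mem_map, exists_exists_and_eq_and, List.mem_range, e3] using h _ ((ma _).2 ⟨u, v, q, rfl⟩)
  · intro h e q
    obtain ⟨u, v, r, rfl⟩ := (ma _).1 q
    simpa only [disj_holds, List.mem_map, exists_exists_and_eq_and, List.mem_range, e3] using h u v r

theorem memb : Red SN ETR := by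
  classical
  refine ⟨fm, pt_fm, fun a => ⟨fun ⟨p, h1, h2, S, s1, s2⟩ => ?_, fun ⟨x, h⟩ => ?_⟩⟩
  · let U := (Finset.univ.filter fun e : Fin a.1.n × Fin a.1.n => a.1.G.Adj e.1 e.2).image fun e => sl (p e.2 - p e.1)
    have c1 : U.card ≤ a.2 := (Finset.card_le_card fun σ h => by
      obtain ⟨e, he, rfl⟩ := Finset.mem_image.1 h
      exact s2 _ _ (Finset.mem_filter.1 he).2).trans s1
    have c2 : U.card ≤ a.1.n * a.1.n := Finset.card_image_le.trans ((Finset.card_filter_le _ _).trans (by simp))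
    let q : ℕ → P := fun i => if h : i < a.1.n then p ⟨i, h⟩ else rep (U.toList.getD (i - a.1.n) none)
    let x : ℕ → ℝ := fun i => if i % 2 = 0 then (q (i / 2)).1 else (q (i / 2)).2
    have e : ∀ i, pt x i = q i := fun i => by
      simp [pt, x, show (2 * i + 1) / 2 = i by omega]
    have e1 : ∀ i : Fin a.1.n, q i = p i := fun i => by simp [q]
    refine ⟨x, (fm_holds a x).2 ?_⟩
    simp only [e, e1]
    refine ⟨h1, h2, fun u v r => ?_⟩
    obtain ⟨t, ht, w⟩ := List.getElem_of_mem (l := U.toList) (Finset.mem_toList.2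
      (Finset.mem_image.2 ⟨(u, v), Finset.mem_filter.2 ⟨Finset.mem_univ _, r⟩, rfl⟩ : sl (p v - p u) ∈ U))
    have e2 : q (a.1.n + t) = rep (sl (p v - p u)) := by simp [q, List.getElem?_eq_getElem ht, w]
    rw [Finset.length_toList] at ht
    exact ⟨t, by omega, by rw [e2]; exact rep_ne _, by
      rw [e2]; exact (sl_eq (rep_ne _) (sub_ne_zero.2 (h1.ne r.ne'))).1 (sl_rep _)⟩
  · obtain ⟨h1, h2, h3⟩ := (fm_holds a x).1 h
    refine ⟨_, h1, h2, (Finset.range (min a.2 (a.1.n * a.1.n))).image fun t => sl (pt x (a.1.n + t)),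
      Finset.card_image_le.trans (by simp), fun u v r => ?_⟩
    obtain ⟨t, ht, b, c⟩ := h3 u v r
    exact Finset.mem_image.2 ⟨t, Finset.mem_range.2 ht, (sl_eq b (sub_ne_zero.2 (h1.ne r.ne'))).2 c⟩

end Pool.Agent.H.MP_09bf15_lc
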